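import Pool.Agent.MP_4f4d9f_gt.Hy.IfB

/-! Properties of the harmonic measures of the sides of a point at infinity. -/

namespace Pool.Agent.MP_4f4d9f_gt.Hy

open Filter Topology

namespace CasesL

variable {G : Type} [Group G] {S : Finset G} {u : G → ℝ} {C : ℕ} {m p m' p' : Pt S u}
  {φ ψ f : G → ℝ}

theorem adm_of (hf : Dir S f) (h : I01 f)
    (e : ∀ z, ¬ Side m p z → ∀ᶠ n in atTop, f (z.z n) = 0) : Adm m p f :=
  ⟨hf, h, fun z hz => tendsto_const_nhds.congr' ((e z hz).mono fun _ h => h.symm)⟩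

theorem adm_zero : Adm m p fun _ => 0 :=
  ⟨dir_const 0, fun _ => ⟨le_rfl, zero_le_one⟩, fun _ _ => tendsto_const_nhds⟩

theorem adm_max (h : Adm m p φ) (h' : Adm m p ψ) : Adm m p fun x => max (φ x) (ψ x) :=
  ⟨h.1.max h'.1, fun x => ⟨le_max_of_le_left (h.2.1 x).1, max_le (h.2.1 x).2 (h'.2.1 x).2⟩,
    fun z hz => by simpa using (h.2.2 z hz).max (h'.2.2 z hz)⟩

theorem le_hh (hc : Ctx S u C) (h : Adm m p φ) (x : G) : Hm S φ x ≤ hh m p x :=
  le_csSup ⟨1, by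
    rintro _ ⟨ψ, hψ, rfl⟩
    exact (hc.hm_i01 hψ.1 hψ.2.1 x).2⟩ ⟨φ, h, rfl⟩

theorem hh_le {x : G} {r : ℝ} (h : ∀ φ, Adm m p φ → Hm S φ x ≤ r) : hh m p x ≤ r :=
  csSup_le ⟨_, _, adm_zero, rfl⟩ (by
    rintro _ ⟨ψ, hψ, rfl⟩
    exact h ψ hψ)

theorem approx (hc : Ctx S u C) (m p : Pt S u) {ε : ℝ} (hε : 0 < ε) (T : Finset G) :
    ∃ φ, Adm m p φ ∧ ∀ y ∈ T, hh m p y - ε < Hm S φ y := by
  classical
  induction T using Finset.induction_on with
  | empty => exact ⟨_, adm_zero, by simp⟩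
  | insert a T _ ih =>
    obtain ⟨φ, h1, h2⟩ := ih
    obtain ⟨_, ⟨ψ, h3, rfl⟩, h4⟩ := exists_lt_of_lt_csSup
      (s := {r | ∃ φ, Adm m p φ ∧ r = Hm S φ a}) ⟨_, _, adm_zero, rfl⟩ (sub_lt_self _ hε)
    refine ⟨_, adm_max h1 h3, fun y hy => ?_⟩
    rcases Finset.mem_insert.1 hy with rfl | hy
    · exact h4.trans_le (hc.hm_mono h3.1 (adm_max h1 h3).1 (fun _ => le_max_right _ _) _)
    · exact (h2 y hy).trans_le (hc.hm_mono h1.1 (adm_max h1 h3).1 (fun _ => le_max_left _ _) _)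

theorem le_of_eps {a b c : ℝ} (hc : 0 ≤ c) (h : ∀ ε, 0 < ε → a ≤ b + c * ε) : a ≤ b := by
  refine le_of_forall_pos_le_add fun ε hε => (h (ε / (c + 1)) (by positivity)).trans ?_
  have : c * (ε / (c + 1)) ≤ ε := by
    rw [← mul_div_assoc, div_le_iff₀ (by positivity)]
    nlinarith
  linarith

theorem harm (hc : Ctx S u C) (m p : Pt S u) : Harm S (hh m p) := by
  classical
  intro x
  have h0 : (0 : ℝ) ≤ S.card := Nat.cast_nonneg _
  refine le_antisymm (le_of_eps h0 fun ε hε => ?_) (le_of_eps h0 fun ε hε => ?_)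
  · obtain ⟨φ, h1, h2⟩ := approx hc m p hε (S.image fun s => x * s)
    have h3 : ∑ s ∈ S, hh m p (x * s) ≤ ∑ s ∈ S, (Hm S φ (x * s) + ε) :=
      Finset.sum_le_sum fun s hs => by
        linarith [h2 _ (Finset.mem_image_of_mem _ hs)]
    rw [Finset.sum_add_distrib, hc.harm h1.1 x, Finset.sum_const, nsmul_eq_mul] at h3
    linarith [mul_le_mul_of_nonneg_left (le_hh hc h1 x) h0]
  · obtain ⟨φ, h1, h2⟩ := approx hc m p hε {x}
    have h3 : ∑ s ∈ S, Hm S φ (x * s) ≤ ∑ s ∈ S, hh m p (x * s) :=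
      Finset.sum_le_sum fun s _ => le_hh hc h1 _
    rw [hc.harm h1.1 x] at h3
    have h4 := mul_le_mul_of_nonneg_left (h2 x (Finset.mem_singleton_self x)).le h0
    linarith

theorem i01 (hc : Ctx S u C) (m p : Pt S u) : I01 (hh m p) := fun x =>
  ⟨(hc.hm_const 0 x).symm.trans_le (le_hh hc adm_zero x),
    hh_le fun _ h => (hc.hm_i01 h.1 h.2.1 x).2⟩

theorem key1 (hc : Ctx S u C) (hf : Dir S f) (h0 : ∀ x, 0 ≤ f x)
    (h1 : ∀ z, Side m p z → ∀ᶠ n in atTop, f (z.z n) = 1) (x : G) : hh m p x ≤ Hm S f x :=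
  hh_le fun φ h => hc.maxp h.1 hf (fun z ε hε => by
    by_cases hz : Side m p z
    · exact (h1 z hz).mono fun n hn => by linarith [(h.2.1 (z.z n)).2]
    · exact ((h.2.2 z hz).eventually (gt_mem_nhds hε)).mono fun n hn => by
        linarith [h0 (z.z n)]) x

theorem key2 (hc : Ctx S u C) (h : ∀ z, Side m p z → ¬ Side m' p' z) (x : G) :
    hh m p x + hh m' p' x ≤ 1 := by
  refine le_sub_iff_add_le.1 (hh_le fun φ h1 => le_sub_comm.1 (hh_le fun ψ h2 => ?_))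
  rw [le_sub_iff_add_le', ← hc.hm_add h1.1 h2.1, ← hc.hm_const 1 x]
  refine hc.maxp (h1.1.add h2.1) (dir_const 1) (fun z ε hε => ?_) x
  by_cases hz : Side m p z
  · exact ((h2.2.2 z (h z hz)).eventually (gt_mem_nhds hε)).mono fun n hn => by
      linarith [(h1.2.1 (z.z n)).2]
  · exact ((h1.2.2 z hz).eventually (gt_mem_nhds hε)).mono fun n hn => by
      linarith [(h2.2.1 (z.z n)).2]

theorem sep_symm (h : IsSep m m' f) : IsSep m' m fun x => 1 - f x :=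
  ⟨(dir_const 1).sub h.1, fun x => ⟨sub_nonneg.2 (h.2.1 x).2, sub_le_self _ (h.2.1 x).1⟩,
    fun z hz => (h.2.2.2 z hz).mono fun _ e => by simp only [e, sub_zero],
    fun z hz => (h.2.2.1 z hz).mono fun _ e => by simp only [e, sub_self]⟩

theorem one (hc : Ctx S u C) (hN : Nb S u) (h : IsSep m m' f) (h1 : ¬ Side m p m') (z : Pt S u)
    (hz : Side m p z) : ∀ᶠ n in atTop, f (z.z n) = 1 :=
  h.2.2.1 z fun e => h1 (hz.trans hc.gen hN e.symm)

theorem zero (hc : Ctx S u C) (hN : Nb S u) (h : IsSep m m' f) (h2 : Side m' p' m) (z : Pt S u)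
    (hz : ¬ Side m' p' z) : ∀ᶠ n in atTop, f (z.z n) = 0 :=
  h.2.2.2 z fun e => hz (h2.trans hc.gen hN e)

theorem nest (hc : Ctx S u C) (hN : Nb S u) (h : IsSep m m' f) (h1 : ¬ Side m p m')
    (h2 : Side m' p' m) : Nest S (hh m p) (hh m' p') f :=
  ⟨h.1, h.2.1,
    key1 hc ((h.1.const_mul 3).sub (dir_const 2)).clamp (fun _ => (clamp_mem _).1) fun z hz =>
      (one hc hN h h1 z hz).mono fun _ e => clamp_of_ge (by rw [e]; norm_num),
    le_hh hc (adm_of (h.1.const_mul 3).clamp (fun _ => clamp_mem _) fun z hz =>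
      (zero hc hN h h2 z hz).mono fun _ e => clamp_of_le (by rw [e]; norm_num))⟩

theorem nono (hc : Ctx S u C) (hN : Nb S u) (h : IsSep m m' f) (h1 : ¬ Side m p m')
    (h2 : ¬ Side m' p' m) (z : Pt S u) (hz : Side m p z) : ¬ Side m' p' z := fun hz' => by
  obtain ⟨n, e1, e2⟩ := ((one hc hN h h1 z hz).and (one hc hN (sep_symm h) h2 z hz')).exists
  linarith

theorem cases1 (hc : Ctx S u C) (hN : Nb S u) (hs : SepP S u) (m p m' p' : Pt S u) :
    hh m p = hh m' p' ∨ (∀ x, hh m p x + hh m' p' x ≤ 1) ∨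
    (∀ x, 1 ≤ hh m p x + hh m' p' x) ∨ (∃ f, Nest S (hh m p) (hh m' p') f) ∨
    ∃ f, Nest S (hh m' p') (hh m p) f := by
  by_cases hn : Near m m'
  · by_cases h : Side m p p'
    · have e : ∀ z, Side m p z ↔ Side m' p' z := fun z =>
        Iff.trans ⟨h.symm.trans hc.gen hN, h.trans hc.gen hN⟩ (hN.side_congr hn)
      refine Or.inl (funext fun x => ?_)
      simp only [hh, Adm, e]
    · exact Or.inr (Or.inl (key2 hc fun z hz hz' =>
        h (hz.trans hc.gen hN ((hN.side_congr hn).2 hz').symm)))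
  · obtain ⟨f, hf⟩ := hs m m' hn
    by_cases h1 : Side m p m' <;> by_cases h2 : Side m' p' m
    · refine Or.inr (Or.inr (Or.inl fun x => ?_))
      have hg := sep_symm hf
      have e1 := le_hh hc (adm_of hg.1 hg.2.1 (zero hc hN hg h1)) x
      have e2 := le_hh hc (adm_of hf.1 hf.2.1 (zero hc hN hf h2)) x
      rw [hc.hm_sub (dir_const 1) hf.1, hc.hm_const] at e1
      linarith
    · exact Or.inr (Or.inr (Or.inr (Or.inr ⟨_, nest hc hN (sep_symm hf) h2 h1⟩)))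
    · exact Or.inr (Or.inr (Or.inr (Or.inl ⟨_, nest hc hN hf h1 h2⟩)))
    · exact Or.inr (Or.inl (key2 hc (nono hc hN hf h1 h2)))

theorem cases2 (hc : Ctx S u C) (hN : Nb S u) (hs : SepP S u) (m m' p q : Pt S u)
    (c : Cut m p q) (c' : Cut m' p q) (hn : ¬ Near m m') :
    ∃ f, (Nest S (hh m p) (hh m' p) f ∨ Nest S (hh m' p) (hh m p) f) ∧
      (∀ᶠ n in atTop, f (p.z n) = 1) ∧ ∀ᶠ n in atTop, f (q.z n) = 0 := by
  obtain ⟨f, hf⟩ := hs m m' hn
  have hg := sep_symm hf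
  by_cases h1 : Side m p m' <;> by_cases h2 : Side m' p m
  · obtain ⟨n, e1, e2⟩ := ((zero hc hN hg h1 q c.2.2).and (zero hc hN hf h2 q c'.2.2)).exists
    exact absurd e1 (by rw [e2]; norm_num)
  · exact ⟨_, Or.inr (nest hc hN hg h2 h1), one hc hN hg h2 p (hN.side_refl c'.1),
      zero hc hN hg h1 q c.2.2⟩
  · exact ⟨_, Or.inl (nest hc hN hf h1 h2), one hc hN hf h1 p (hN.side_refl c.1),
      zero hc hN hf h2 q c'.2.2⟩
  · exact absurd (hN.side_refl c'.1) (nono hc hN hf h1 h2 p (hN.side_refl c.1))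

theorem test (hc : Ctx S u C) (hN : Nb S u) (hs : SepP S u) (h : ¬ Near m p) :
    ∃ ψ, Dir S ψ ∧ I01 ψ ∧ (∀ x, hh m p x ≤ 1 / 2 → ψ x = 0) ∧
      Tendsto (fun n => ψ (p.z n)) atTop (𝓝 1) := by
  obtain ⟨g, hg⟩ := hs p m fun e => h (hN.near_symm e)
  refine ⟨fun x => max 0 (2 * Hm S g x - 1),
    (dir_const 0).max (((hc.hm_dir hg.1).const_mul 2).sub (dir_const 1)),
    fun x => ⟨le_max_left _ _, max_le zero_le_one ?_⟩, fun x hx => max_eq_left ?_, ?_⟩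
  · linarith [(hc.hm_i01 hg.1 hg.2.1 x).2]
  · linarith [le_hh hc (adm_of hg.1 hg.2.1 hg.2.2.2) x]
  · have h1 : Tendsto (fun n => g (p.z n)) atTop (𝓝 1) :=
      tendsto_const_nhds.congr' ((hg.2.2.1 p hN.not_side_self).mono fun _ e => e.symm)
    have h2 := (tendsto_const_nhds (x := (0 : ℝ))).max
      (((h1.sub (p.tendsto_sq (hc.sq hg.1))).const_mul 2).sub_const 1)
    simp only [sub_sub_cancel] at h2
    norm_num at h2 ⊢
    exact h2

end CasesL

open CasesL in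
theorem cases_stmt : CasesStmt := by
  intro G _ S u C hc hN hs
  refine ⟨harm hc, i01 hc, cases1 hc hN hs, cases2 hc hN hs, fun m p h => ?_, fun m p q c => ?_⟩
  · obtain ⟨ψ, h1, h2, h3, h4⟩ := test hc hN hs h
    exact ⟨ψ, h1, h2, fun x hx => h3 x (not_lt.1 hx), h4⟩
  · obtain ⟨ψ, h1, h2, h3, h4⟩ := test hc hN hs c.2.1
    refine ⟨ψ, h1, h2, fun x hx => h3 x ?_, h4⟩
    have e1 : 1 / 2 < hh m p x := hx
    have e2 := key2 hc (m := m) (p := p) (m' := m) (p' := q)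
      (fun z hz hz' => c.2.2 (hz.trans hc.gen hN hz'.symm)) x
    linarith

end Pool.Agent.MP_4f4d9f_gt.Hy
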