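import Pool.Agent.MP_4f4d9f_gt.Hy.Defs2

/-! CAT(0) spaces and hyperbolic spaces have combings. -/

namespace Pool.Agent.MP_4f4d9f_gt.Hy

variable {Y : Type} [PseudoMetricSpace Y]

theorem combing_of (p : Y) (K : ℝ) (hK : 0 ≤ K) (τ : Y → ℝ → Y)
    (h0 : ∀ y, dist p (τ y 0) ≤ K) (h1 : ∀ y, dist (τ y (dist p y)) y ≤ K)
    (h2 : ∀ y y' s t, 0 ≤ s → s ≤ dist p y → 0 ≤ t → t ≤ dist p y' →
      dist (τ y s) (τ y' t) ≤ |s - t| + K * (dist y y' + 1)) : Combing Y := by
  let σ : Y → ℕ → Y := fun y i =>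
    if i = 0 then p else if dist p y ≤ i then y else τ y i
  have a : ∀ y (i : ℕ), dist (σ y i) (τ y (min i (dist p y))) ≤ K := by
    intro y i
    simp only [σ]
    split_ifs with e e'
    · simpa [e, min_eq_left dist_nonneg] using h0 y
    · rw [min_eq_right e', dist_comm]; exact h1 y
    · rw [min_eq_left (not_le.1 e').le, dist_self]; exact hK
  have b : ∀ y y' (i j : ℕ), dist (σ y i) (σ y' j) ≤
      2 * K + (|min (i : ℝ) (dist p y) - min (j : ℝ) (dist p y')| + K * (dist y y' + 1)) := by
    intro y y' i j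
    have := dist_triangle4 (σ y i) (τ y (min i (dist p y))) (τ y' (min j (dist p y'))) (σ y' j)
    have e := h2 y y' (min i (dist p y)) (min j (dist p y'))
      (le_min i.cast_nonneg dist_nonneg) (min_le_right _ _)
      (le_min j.cast_nonneg dist_nonneg) (min_le_right _ _)
    have e1 := a y i
    have e2 := a y' j
    rw [dist_comm] at e2
    linarith
  refine ⟨p, 3 * K + 1, σ, fun y => by simp [σ], fun y i hi => ?_, fun y i => ?_, fun y y' i => ?_⟩
  · have d := dist_nonneg (x := p) (y := y)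
    have e : dist p y + 1 ≤ i := by nlinarith
    have e' : i ≠ 0 := by
      rintro rfl
      simp only [Nat.cast_zero] at e
      linarith
    simp only [σ, if_neg e', if_pos (show dist p y ≤ i by linarith)]
  · have e := abs_min_sub_min_le_max (i : ℝ) (dist p y) ((i + 1 : ℕ) : ℝ) (dist p y)
    have := b y y i (i + 1)
    simp only [Nat.cast_succ, sub_add_cancel_left, abs_neg, abs_one, sub_self, abs_zero,
      zero_le_one, sup_of_le_left, dist_self] at e this
    linarith
  · have e := abs_min_sub_min_le_max (i : ℝ) (dist p y) (i : ℝ) (dist p y')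
    have := b y y' i i
    have e' : |dist p y - dist p y'| ≤ dist y y' := by
      rw [dist_comm p y, dist_comm p y']; exact abs_dist_sub_le _ _ _
    rw [sub_self, abs_zero, max_eq_right (abs_nonneg _)] at e
    have d := dist_nonneg (x := y) (y := y')
    nlinarith

theorem Hyp.combing (h : Hyp Y) (p : Y) : Combing Y := by
  classical
  obtain ⟨δ, h1, h2⟩ := h
  choose! m m1 m2 using h2 p
  have hδ : 0 ≤ δ := by simpa using h1 p p p p
  refine combing_of p (8 * δ + 2) (by linarith) m (fun y => ?_) (fun y => ?_)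
    fun y y' s t a1 a2 a3 a4 => ?_
  · linarith [m1 y 0 le_rfl dist_nonneg]
  · linarith [m2 y _ dist_nonneg le_rfl]
  · have b1 := m1 y s a1 a2
    have b2 := m2 y s a1 a2
    have b3 := m1 y' t a3 a4
    have b4 := m2 y' t a3 a4
    have c1 := h1 (m y s) (m y' t) p y'
    have c2 := h1 (m y s) y' p y
    have d := dist_nonneg (x := y) (y := y')
    have e1 := dist_triangle p y y'
    have e2 := dist_triangle p y' y
    have e3 := le_abs_self (s - t)
    have e4 := neg_le_abs (s - t)
    have e5 : 0 ≤ δ * dist y y' := mul_nonneg hδ d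
    rw [dist_comm (m y s) p, dist_comm y' y, dist_comm y' p] at c2
    rw [dist_comm (m y s) p, dist_comm (m y' t) p] at c1
    rw [dist_comm y' y] at e2
    rcases le_max_iff.1 (sub_le_iff_le_add.2 c1) with c1 | c1 <;>
      rcases le_max_iff.1 (sub_le_iff_le_add.2 c2) with c2 | c2 <;> nlinarith

theorem CAT0.combing (h : CAT0 Y) (p : Y) : Combing Y := by
  classical
  choose! m hm using h p
  have a1 : ∀ y t, 0 ≤ t → t ≤ 1 → dist p (m y t) ^ 2 ≤ t ^ 2 * dist p y ^ 2 := by
    intro y t a b
    have := hm y t a b p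
    rw [dist_self] at this
    linarith
  have a2 : ∀ y t, 0 ≤ t → t ≤ 1 → dist y (m y t) ^ 2 ≤ (1 - t) ^ 2 * dist p y ^ 2 := by
    intro y t a b
    have := hm y t a b y
    rw [dist_self, dist_comm y p] at this
    linarith
  have a3 : ∀ y s t, 0 ≤ s → s ≤ 1 → 0 ≤ t → t ≤ 1 →
      dist (m y s) (m y t) ≤ |s - t| * dist p y := by
    intro y s t a b c d
    have e := hm y t c d (m y s)
    have e1 := mul_le_mul_of_nonneg_left (a1 y s a b) (sub_nonneg.2 d)
    have e2 := mul_le_mul_of_nonneg_left (a2 y s a b) c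
    rw [dist_comm (m y s) p, dist_comm (m y s) y] at e
    refine abs_le_of_sq_le_sq' ?_ (mul_nonneg (abs_nonneg _) dist_nonneg) |>.2
    rw [mul_pow, sq_abs]
    linarith
  have a4 : ∀ y y' t, 0 ≤ t → t ≤ 1 → dist (m y t) (m y' t) ≤ dist y y' := by
    intro y y' t a b
    have e := hm y' t a b (m y t)
    have e1 := mul_le_mul_of_nonneg_left (a1 y t a b) (sub_nonneg.2 b)
    have e2 := mul_le_mul_of_nonneg_left (hm y t a b y') a
    rw [dist_comm (m y t) p, dist_comm (m y t) y'] at e
    rw [dist_comm y' p, dist_comm y' y] at e2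
    refine abs_le_of_sq_le_sq' ?_ dist_nonneg |>.2
    have e3 : t ^ 2 * dist y y' ^ 2 ≤ dist y y' ^ 2 :=
      mul_le_of_le_one_left (sq_nonneg _) (pow_le_one₀ a b)
    linarith
  have q : ∀ y s, 0 ≤ s → s ≤ dist p y → 0 ≤ s / dist p y ∧ s / dist p y ≤ 1 ∧
      s / dist p y * dist p y = s := by
    intro y s a b
    refine ⟨div_nonneg a dist_nonneg, div_le_one_of_le₀ b dist_nonneg, ?_⟩
    by_cases e : dist p y = 0
    · rw [e, mul_zero]; linarith
    · exact div_mul_cancel₀ _ e
  refine combing_of p 2 zero_le_two (fun y s => m y (s / dist p y)) (fun y => ?_) (fun y => ?_)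
    fun y y' s t b1 b2 b3 b4 => ?_
  · have := a1 y 0 le_rfl zero_le_one
    rw [zero_div]
    nlinarith [dist_nonneg (x := p) (y := m y 0)]
  · obtain ⟨c1, c2, c3⟩ := q y _ dist_nonneg le_rfl
    have := a2 y _ c1 c2
    rw [← mul_pow, sub_mul, c3, one_mul, sub_self] at this
    rw [dist_comm]
    nlinarith [dist_nonneg (x := y) (y := m y (dist p y / dist p y))]
  · obtain ⟨c1, c2, c3⟩ := q y s b1 b2
    obtain ⟨c4, c5, c6⟩ := q y' t b3 b4
    have e := dist_triangle (m y (s / dist p y)) (m y' (s / dist p y)) (m y' (t / dist p y'))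
    have e1 := a4 y y' _ c1 c2
    have e2 := a3 y' _ _ c1 c2 c4 c5
    have e3 : |dist p y' - dist p y| ≤ dist y y' := by
      rw [dist_comm p y, dist_comm p y', dist_comm y y']; exact abs_dist_sub_le _ _ _
    have e4 : |s / dist p y - t / dist p y'| * dist p y' =
        |s / dist p y * (dist p y' - dist p y) + (s - t)| := by
      rw [← abs_of_nonneg (dist_nonneg (x := p) (y := y')), ← abs_mul, abs_dist, sub_mul, mul_sub,
        c3, c6]
      congr 1
      ring
    have e5 := abs_add_le (s / dist p y * (dist p y' - dist p y)) (s - t)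
    rw [abs_mul, abs_of_nonneg c1] at e5
    have e6 := mul_le_of_le_one_left (abs_nonneg (dist p y' - dist p y)) c2
    linarith

theorem NPC.combable {G : Type} [Group G] (h : NPC G) : Combable G := by
  obtain ⟨Y, _, _, h1, h2, ⟨y, h3⟩, h4⟩ := h
  exact ⟨Y, _, _, h1, h2, ⟨y, h3⟩, h4.elim (·.combing y) fun h => h.elim (·.combing y) id⟩

end Pool.Agent.MP_4f4d9f_gt.Hy
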