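import Pool.Agent.MP_4f4d9f_gt.Hy.IfD

/-! The cone inequality for cycles on tuples in a combable group. -/

namespace Pool.Agent.MP_4f4d9f_gt.Hy

open Finsupp Sg Sg.Tup

namespace ConeTL

variable {G : Type}

/-- Applying a map to all vertices. -/
def mp (f : G → G) (x : Tup G) : Tup G := ⟨f x.hd, x.tl.map f⟩

theorem mp_cons (f : G → G) (a : G) (x : Tup G) : mp f (cons a x) = cons (f a) (mp f x) := rfl

theorem mp_pt (f : G → G) (a : G) : mp f (pt a) = pt (f a) := rfl

theorem deg_mp (f : G → G) (x : Tup G) : (mp f x).deg = x.deg := List.length_map _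

theorem verts_mp (f : G → G) (x : Tup G) : verts (mp f x) = (verts x).map f := rfl

theorem mp_eq {f : G → G} {x : Tup G} (h : ∀ a ∈ verts x, f a = a) : mp f x = x :=
  Tup.ext (h _ (hd_mem x)) (by
    change x.tl.map f = x.tl
    conv_rhs => rw [← List.map_id x.tl]
    exact List.map_congr_left fun a ha => h a (List.mem_cons_of_mem _ ha))

/-- The induced map on chains. -/
noncomputable def M (f : G → G) : T2 G →ₗ[F2] T2 G := lmapDomain F2 F2 (mp f)

theorem M_single (f : G → G) (x : Tup G) (r : F2) : M f (single x r) = single (mp f x) r := by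
  simp [M]

theorem M_cn (f : G → G) (a : G) (c : T2 G) : M f (cn F2 a c) = cn F2 (f a) (M f c) := by
  induction c using Finsupp.induction_linear with
  | zero => simp
  | add x y hx hy => simp only [map_add, hx, hy]
  | single x r => simp only [cn_single, M_single, mp_cons]

theorem eps_M (f : G → G) (c : T2 G) : eps F2 (M f c) = eps F2 c := by
  induction c using Finsupp.induction_linear with
  | zero => simp
  | add x y hx hy => simp only [map_add, hx, hy]
  | single x r => simp only [M_single, eps_single, deg_mp]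

theorem bdT_M (f : G → G) (c : T2 G) : bdT F2 (M f c) = M f (bdT F2 c) := by
  induction c using Finsupp.induction_linear with
  | zero => simp
  | add x y hx hy => simp only [map_add, hx, hy]
  | single x r =>
    induction x using Tup.induction with
    | h0 a => rw [M_single, mp_pt, bdT_pt, bdT_pt, map_zero]
    | h1 a x ih =>
      rw [← cn_single, M_cn, bdT_cn, bdT_cn, ih, eps_M, map_sub, map_sub, M_cn, map_smul,
        M_single f (pt a), mp_pt]

/-- The prism over a tuple. -/
noncomputable def pr1 (f g : G → G) : G → List G → T2 G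
  | a, [] => cn F2 (f a) (single (pt (g a)) 1)
  | a, b :: l => cn F2 (f a) (single (mp g ⟨a, b :: l⟩) 1 + pr1 f g b l)

/-- The prism operator. -/
noncomputable def P (f g : G → G) : T2 G →ₗ[F2] T2 G :=
  linearCombination F2 fun x => pr1 f g x.hd x.tl

variable {f g : G → G}

theorem P_pt (a : G) : P f g (single (pt a) 1) = cn F2 (f a) (single (pt (g a)) 1) := by
  simp [P, pt, pr1]

theorem P_cons (a : G) (x : Tup G) : P f g (single (cons a x) 1) =
    cn F2 (f a) (single (cons (g a) (mp g x)) 1 + P f g (single x 1)) := by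
  simp only [P, linearCombination_single, one_smul]
  rfl

theorem P_cn (a : G) (c : T2 G) :
    P f g (cn F2 a c) = cn F2 (f a) (cn F2 (g a) (M g c) + P f g c) := by
  induction c using Finsupp.induction_linear with
  | zero => simp
  | add x y hx hy => simp only [map_add, hx, hy]; abel
  | single x r =>
    rw [← smul_single_one]
    simp only [map_smul, ← smul_add]
    rw [cn_single, P_cons, M_single, cn_single]

theorem eps_P (c : T2 G) : eps F2 (P f g c) = 0 := by
  induction c using Finsupp.induction_linear with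
  | zero => simp
  | add x y hx hy => simp only [map_add, hx, hy, add_zero]
  | single x r =>
    rw [← smul_single_one, map_smul, map_smul]
    induction x using Tup.induction with
    | h0 a => rw [P_pt, eps_cn, smul_zero]
    | h1 a x _ => rw [P_cons, eps_cn, smul_zero]

theorem two (c : T2 G) : (2 : ℕ) • c = 0 := by rw [two_smul, add_self2]

/-- The prism identity. -/
theorem bdT_P (c : T2 G) : bdT F2 (P f g c) = M g c + M f c + P f g (bdT F2 c) := by
  induction c using Finsupp.induction_linear with
  | zero => simp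
  | add x y hx hy => simp only [map_add, hx, hy]; abel
  | single x r =>
    rw [← smul_single_one]
    simp only [map_smul, ← smul_add]
    congr 1
    induction x using Tup.induction with
    | h0 a =>
      rw [P_pt, bdT_cn, bdT_pt, bdT_pt, M_single, M_single, mp_pt, mp_pt, eps_single]
      simp [sub_eq_add2]
    | h1 a x ih =>
      rw [← cn_single, P_cn, bdT_cn, bdT_cn, M_cn, M_cn]
      simp only [map_add, map_smul, sub_eq_add2, eps_cn, eps_P, bdT_cn, ih, bdT_M, eps_M, P_cn,
        P_pt, add_zero, zero_smul]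
      generalize cn F2 (g a) (M g (single x 1)) = A
      generalize P f g (single x 1) = B
      generalize cn F2 (f a) (M g (single x 1)) = C
      generalize cn F2 (f a) (cn F2 (g a) (M g (bdT F2 (single x 1)))) = D
      generalize eps F2 (single x 1) • cn F2 (f a) (single (pt (g a)) 1) = E
      generalize cn F2 (f a) (M f (single x 1)) = F
      generalize cn F2 (f a) (P f g (bdT F2 (single x 1))) = H
      have : A + B + (C + D + E + (C + F + H)) = A + F + (B + (D + H) + E) + (2 : ℕ) • C := by
        abel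
      rw [this, two, add_zero]

theorem supp_cn {a : G} {c : T2 G} {y : Tup G} (h : y ∈ (cn F2 a c).support) :
    ∃ x ∈ c.support, cons a x = y := by
  classical
  exact Finset.mem_image.1 (mapDomain_support h)

theorem card_cn (a : G) (c : T2 G) : (cn F2 a c).support.card ≤ c.support.card := by
  classical
  exact (Finset.card_le_card mapDomain_support).trans Finset.card_image_le

theorem supp_M {c : T2 G} {y : Tup G} (h : y ∈ (M f c).support) :
    ∃ x ∈ c.support, mp f x = y := by
  classical
  exact Finset.mem_image.1 (mapDomain_support h)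

theorem card_M (c : T2 G) : (M f c).support.card ≤ c.support.card := by
  classical
  exact (Finset.card_le_card mapDomain_support).trans Finset.card_image_le

theorem card_add (c c' : T2 G) : (c + c').support.card ≤ c.support.card + c'.support.card := by
  classical
  exact (Finset.card_le_card support_add).trans (Finset.card_union_le _ _)

theorem supp_add {c c' : T2 G} {y : Tup G} (h : y ∈ (c + c').support) :
    y ∈ c.support ∨ y ∈ c'.support := by
  classical
  exact Finset.mem_union.1 (support_add h)

theorem card_single (x : Tup G) : (single x (1 : F2)).support.card ≤ 1 :=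
  (Finset.card_le_card support_single_subset).trans (Finset.card_singleton x).le

theorem card_P1 (x : Tup G) : (P f g (single x 1)).support.card ≤ x.deg + 1 := by
  induction x using Tup.induction with
  | h0 a => rw [P_pt]; exact (card_cn _ _).trans (card_single _)
  | h1 a x ih =>
    rw [P_cons, deg_cons]
    refine (card_cn _ _).trans ((card_add _ _).trans ?_)
    have := card_single (cons (g a) (mp g x))
    omega

theorem supp_P1 (x : Tup G) : ∀ y ∈ (P f g (single x 1)).support, y.deg = x.deg + 1 ∧
    y.hd = f x.hd ∧ ∀ v ∈ verts y, ∃ a ∈ verts x, v = f a ∨ v = g a := by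
  induction x using Tup.induction with
  | h0 a =>
    intro y hy
    rw [P_pt] at hy
    obtain ⟨w, hw, rfl⟩ := supp_cn hy
    rw [Finset.mem_singleton.1 (support_single_subset hw)]
    refine ⟨rfl, rfl, fun v hv => ⟨a, hd_mem _, ?_⟩⟩
    simpa [verts_cons, verts_pt] using hv
  | h1 a x ih =>
    intro y hy
    rw [P_cons] at hy
    obtain ⟨w, hw, rfl⟩ := supp_cn hy
    rcases supp_add hw with hw | hw
    · rw [Finset.mem_singleton.1 (support_single_subset hw)]
      refine ⟨by simp [deg_mp], rfl, fun v hv => ?_⟩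
      rw [verts_cons, ← mp_cons, verts_mp] at hv
      rcases List.mem_cons.1 hv with hv | hv
      · exact ⟨a, hd_mem _, Or.inl hv⟩
      · obtain ⟨b, hb, rfl⟩ := List.mem_map.1 hv
        exact ⟨b, hb, Or.inr rfl⟩
    · obtain ⟨e1, -, e3⟩ := ih w hw
      refine ⟨by simp [e1], rfl, fun v hv => ?_⟩
      rcases List.mem_cons.1 hv with hv | hv
      · exact ⟨a, hd_mem _, Or.inl hv⟩
      · obtain ⟨b, hb, e⟩ := e3 v hv
        exact ⟨b, List.mem_cons_of_mem _ hb, e⟩

theorem P_eq (c : T2 G) : P f g c = linearCombination F2 (fun x => P f g (single x 1)) c := by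
  simp only [P, linearCombination_single, one_smul]

theorem card_P {c : T2 G} {n : ℕ} (h : ∀ x ∈ c.support, x.deg = n) :
    (P f g c).support.card ≤ (n + 1) * c.support.card := by
  classical
  rw [P_eq, linearCombination_apply, mul_comm]
  refine (Finset.card_le_card support_sum).trans (Finset.card_biUnion_le_card_mul _ _ _ ?_)
  intro x hx
  exact (Finset.card_le_card support_smul).trans (h x hx ▸ card_P1 x)

variable [Group G] {ℓ : G → ℕ} {K : ℕ} {σ : G → ℕ → G}

theorem len_le (hl : Len ℓ) (hc : Cmb ℓ K σ) (a : G) (i : ℕ) : ℓ (σ a i) ≤ K * i := by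
  induction i with
  | zero => rw [hc.zero, (hl.zero 1).2 rfl]; exact Nat.zero_le _
  | succ i ih =>
    have h1 := hl.mul (σ a i) ((σ a i)⁻¹ * σ a (i + 1))
    have h2 := hc.step a i
    rw [mul_inv_cancel_left] at h1
    rw [mul_add, mul_one]
    omega

/-- Filling the projections of a cycle along the combing. -/
theorem fill (hl : Len ℓ) (hc : Cmb ℓ K σ) {j r : ℕ} {z : T2 G} (y : G)
    (hz : ∀ x ∈ z.support, Sc ℓ (j + 1) r x) (h0 : bdT F2 z = 0) (n : ℕ) :
    ∃ u : T2 G, bdT F2 u = M (fun a => y * σ (y⁻¹ * a) n) z ∧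
      u.support.card ≤ (1 + (j + 2) * n) * z.support.card ∧
      ∀ x ∈ u.support, Sc ℓ (j + 2) (K + K * (r + 1) + K) x ∧ ℓ (y⁻¹ * x.hd) ≤ K * n := by
  induction n with
  | zero =>
    have he : eps F2 z = 0 := by
      by_contra e
      obtain ⟨x, hx, e'⟩ := exists_of_lc_ne_zero e
      exact e' (if_neg (by rw [(hz x hx).1]; omega))
    refine ⟨cn F2 y (M (fun a => y * σ (y⁻¹ * a) 0) z), ?_, ?_, fun x hx => ?_⟩
    · rw [bdT_cn, bdT_M, h0, eps_M, he]
      simp
    · simpa using (card_cn _ _).trans (card_M _)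
    · obtain ⟨w, hw, rfl⟩ := supp_cn hx
      obtain ⟨v, hv, rfl⟩ := supp_M hw
      have : ∀ a ∈ verts (cons y (mp (fun a => y * σ (y⁻¹ * a) 0) v)), a = y := by
        intro a ha
        rw [verts_cons, verts_mp] at ha
        rcases List.mem_cons.1 ha with ha | ha
        · exact ha
        · obtain ⟨b, -, rfl⟩ := List.mem_map.1 ha
          rw [hc.zero, mul_one]
      refine ⟨⟨by rw [deg_cons, deg_mp, (hz v hv).1], fun a ha b hb => ?_⟩, (hl.self y).le⟩
      rw [this a ha, this b hb, hl.self]
      exact Nat.zero_le _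
  | succ n ih =>
    obtain ⟨u, h1, h2, h3⟩ := ih
    refine ⟨u + P (fun a => y * σ (y⁻¹ * a) n) (fun a => y * σ (y⁻¹ * a) (n + 1)) z, ?_, ?_,
      fun x hx => ?_⟩
    · rw [map_add, h1, bdT_P, h0, map_zero, add_zero, add_comm, add_assoc, add_self2, add_zero]
    · refine (card_add _ _).trans ((add_le_add h2 (card_P fun x hx => (hz x hx).1)).trans ?_)
      exact le_of_eq (by ring)
    rcases supp_add hx with hx | hx
    · exact ⟨(h3 x hx).1, (h3 x hx).2.trans (Nat.mul_le_mul_left K n.le_succ)⟩
    rw [P_eq] at hx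
    obtain ⟨w, hw, hx⟩ := mem_support_lc hx
    obtain ⟨e1, e2, e3⟩ := supp_P1 w x hx
    have near : ∀ v ∈ verts x, ∃ a ∈ verts w, ℓ ((y * σ (y⁻¹ * a) n)⁻¹ * v) ≤ K := by
      intro v hv
      obtain ⟨a, ha, rfl | rfl⟩ := e3 v hv
      · exact ⟨a, ha, by rw [hl.self]; exact Nat.zero_le _⟩
      · exact ⟨a, ha, by simpa [mul_assoc] using hc.step (y⁻¹ * a) n⟩
    refine ⟨⟨by rw [e1, (hz w hw).1], fun v hv v' hv' => ?_⟩, ?_⟩
    · obtain ⟨a, ha, d1⟩ := near v hv
      obtain ⟨b, hb, d2⟩ := near v' hv'
      have d3 : ℓ ((y * σ (y⁻¹ * a) n)⁻¹ * (y * σ (y⁻¹ * b) n)) ≤ K * (r + 1) := by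
        have d4 := hc.near (y⁻¹ * a) (y⁻¹ * b) n
        have d5 : (y⁻¹ * a)⁻¹ * (y⁻¹ * b) = a⁻¹ * b := by group
        rw [d5] at d4
        have d6 := d4.trans (Nat.mul_le_mul_left K (Nat.succ_le_succ ((hz w hw).2 a ha b hb)))
        simpa [mul_assoc] using d6
      rw [hl.symm] at d1
      exact (hl.tri _ _ _).trans (add_le_add ((hl.tri _ _ _).trans (add_le_add d1 d3)) d2)
    · rw [e2, inv_mul_cancel_left]
      exact (len_le hl hc _ _).trans (Nat.mul_le_mul_left K n.le_succ)

end ConeTL

open ConeTL in
/-- The cone inequality. -/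
theorem cone_stmt : ConeStmt := by
  intro G _ ℓ K σ hl hc j r
  refine ⟨K + K * (r + 1) + K, 1 + (j + 2) * (K * (r + 1)) + K * (K * (r + 1)),
    fun z y ρ hz h0 => ?_⟩
  obtain ⟨u, h1, h2, h3⟩ := fill hl hc y (fun x hx => (hz x hx).1) h0 (K * (r + 1) * (ρ + 1))
  refine ⟨u, ?_, h2.trans (Nat.mul_le_mul_right _ ?_), fun x hx => ⟨(h3 x hx).1,
    (h3 x hx).2.trans ?_⟩⟩
  · rw [h1]
    change mapDomain _ z = z
    conv_rhs => rw [← mapDomain_id (v := z)]
    refine mapDomain_congr fun x hx => mp_eq fun a ha => ?_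
    have d1 := hl.tri y x.hd a
    have d2 := (hz x hx).1.2 _ (hd_mem x) a ha
    have d3 := (hz x hx).2
    rw [hc.last, mul_inv_cancel_left]
    rw [mul_assoc]
    exact Nat.mul_le_mul_left K (by nlinarith [Nat.zero_le (r * ρ)])
  · nlinarith [Nat.zero_le (K * (K * (r + 1)) * (ρ + 1)), Nat.zero_le ρ]
  · nlinarith [Nat.zero_le ((j + 2) * (K * (r + 1)) * (ρ + 1)), Nat.zero_le ρ]

end Pool.Agent.MP_4f4d9f_gt.Hy
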