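import Pool.Agent.MP_4f4d9f_gt.Hy.Defs

namespace Pool.Agent.MP_4f4d9f_gt.Hy

/-- The CAT(0) condition: between any `x` and `y` there is, for each `t ∈ [0, 1]`, a point `m`
satisfying the comparison inequality of Bruhat and Tits. -/
def CAT0 (Y : Type) [PseudoMetricSpace Y] : Prop :=
  ∀ (x y : Y) (t : ℝ), 0 ≤ t → t ≤ 1 → ∃ m, ∀ z,
    dist z m ^ 2 ≤ (1 - t) * dist z x ^ 2 + t * dist z y ^ 2 - t * (1 - t) * dist x y ^ 2

/-- Gromov hyperbolic (four point condition) and roughly geodesic. -/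
def Hyp (Y : Type) [PseudoMetricSpace Y] : Prop :=
  ∃ δ : ℝ, (∀ x y z w : Y,
      dist x y + dist z w ≤ max (dist x z + dist y w) (dist x w + dist y z) + δ) ∧
    ∀ (x y : Y) (t : ℝ), 0 ≤ t → t ≤ dist x y →
      ∃ m, dist x m ≤ t + δ ∧ dist m y ≤ dist x y - t + δ

/-- `G` acts by isometries, properly and coboundedly, on a space that is CAT(0), hyperbolic, or has
a combing. -/
def NPC (G : Type) [Group G] : Prop :=
  ∃ (Y : Type) (_ : PseudoMetricSpace Y) (_ : MulAction G Y),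
    (∀ (g : G) (y y' : Y), dist (g • y) (g • y') = dist y y') ∧
    (∀ (y : Y) (r : ℝ), {g : G | dist y (g • y) ≤ r}.Finite) ∧
    (∃ (y : Y) (r : ℝ), ∀ y', ∃ g : G, dist y' (g • y) ≤ r) ∧ (CAT0 Y ∨ Hyp Y ∨ Combing Y)

end Pool.Agent.MP_4f4d9f_gt.Hy
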