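import Pool.Agent.MP_4f4d9f_gt.Hy.IfB

/-! The half spaces form an invariant nested family. -/

namespace Pool.Agent.MP_4f4d9f_gt.Hy

open Filter Topology

namespace FamL

variable {G : Type} [Group G] {S : Finset G} {u : G → ℝ} {C : ℕ}

theorem key (hc : Ctx S u C) (hH : HH S u) (m p m' p' : Pt S u)
    (h1 : (EE m p ∩ EE m' p').Nonempty) (h2 : EE m p ∪ EE m' p' ≠ Set.univ) :
    hh m p = hh m' p' ∨ (∃ f, Nest S (hh m p) (hh m' p') f) ∨
      ∃ f, Nest S (hh m' p') (hh m p) f := by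
  obtain ⟨y, hy, hy'⟩ := h1
  have a1 : 1 / 2 < hh m p y := hy
  have a2 : 1 / 2 < hh m' p' y := hy'
  rcases hH.cases m p m' p' with h | h | h | h | h
  · exact Or.inl h
  · have := h y
    exfalso
    linarith
  · exfalso
    obtain ⟨x, hx⟩ := (Set.ne_univ_iff_exists_notMem _).1 h2
    have b1 : hh m p x ≤ 1 / 2 := not_lt.1 fun e => hx (Or.inl e)
    have b2 : hh m' p' x ≤ 1 / 2 := not_lt.1 fun e => hx (Or.inr e)
    have := hc.gen.eq_of_min (f := fun x => hh m p x + hh m' p' x) (x₀ := x)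
      (fun z => (((hH.harm m p).add (hH.harm m' p')) z).le)
      (fun z => by have := h z; linarith) y
    linarith
  · exact Or.inr (Or.inl h)
  · exact Or.inr (Or.inr h)

theorem sub (hc : Ctx S u C) {m p m' p' : Pt S u} {f : G → ℝ}
    (h : Nest S (hh m p) (hh m' p') f) : EE m p ⊆ EE m' p' :=
  fun x hx => lt_of_lt_of_le hx (hc.nest_le h x)

theorem eq {m p m' p' : Pt S u} (h : hh m p = hh m' p') : EE m p = EE m' p' := by
  rw [EE, EE, h]

end FamL

theorem fam_stmt : FamStmt := by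
  intro G _ S u C hc hH hs
  have hne : ∀ E ∈ Fam S u, E.Nonempty := by
    rintro _ ⟨m, p, q, h, rfl⟩
    exact (hH.mem h.1).exists.elim fun n e => ⟨_, e⟩
  have hpr : ∀ E ∈ Fam S u, E ≠ Set.univ := by
    rintro _ ⟨m, p, q, h, rfl⟩
    exact (hH.notMem h).exists.elim fun n e => (Set.ne_univ_iff_exists_notMem _).2 ⟨_, e⟩
  refine ⟨hs, hne, hpr, ?_, ?_⟩
  · rintro _ ⟨m, p, q, -, rfl⟩ _ ⟨m', p', q', -, rfl⟩ h1 h2
    rcases FamL.key hc hH m p m' p' h1 h2 with h | ⟨f, h⟩ | ⟨f, h⟩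
    · exact Or.inl (FamL.eq h).subset
    · exact Or.inl (FamL.sub hc h)
    · exact Or.inr (FamL.sub hc h)
  · intro E hE E' hE' hlt w
    have h1 : (E ∩ E').Nonempty := by
      rw [Set.inter_eq_left.2 hlt.1]
      exact hne E hE
    have h2 : E ∪ E' ≠ Set.univ := by
      rw [Set.union_eq_right.2 hlt.1]
      exact hpr E' hE'
    obtain ⟨m, p, q, -, rfl⟩ := hE
    obtain ⟨m', p', q', -, rfl⟩ := hE'
    rcases FamL.key hc hH m p m' p' h1 h2 with h | ⟨f, h⟩ | ⟨f, h⟩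
    · exact absurd (FamL.eq h) hlt.ne
    · exact hc.nest_finite h w
    · exact absurd (FamL.sub hc h) hlt.2

end Pool.Agent.MP_4f4d9f_gt.Hy
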