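import Pool.Agent.MP_4f4d9f_gt.Hy.LemNA

/-! The normalisation lemma. -/

namespace Pool.Agent.MP_4f4d9f_gt.Hy

open Filter Topology
open scoped Pointwise

namespace LemNL

variable {G : Type} [Group G] {S : Finset G} {C : ℕ} {c : G × G → ZMod 2}

theorem exists_mn {w : G × G → ZMod 2} (hw : (sp1 S w).Finite) :
    ∃ c, Mn S c ∧ ∀ t, Tri S t → d1 c t = d1 w t := by
  have hne : {c : G × G → ZMod 2 | (sp1 S c).Finite ∧ ∀ t, Tri S t → d1 c t = d1 w t}.Nonempty :=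
    ⟨w, hw, fun _ _ => rfl⟩
  have h1 := Function.argminOn_mem (fun c : G × G → ZMod 2 => (sp1 S c).ncard) _ hne
  refine ⟨_, ⟨h1.1, fun c2 f2 e2 => ?_⟩, h1.2⟩
  have h2 : c2 ∈ {c : G × G → ZMod 2 | (sp1 S c).Finite ∧ ∀ t, Tri S t → d1 c t = d1 w t} :=
    ⟨f2, fun t ht => (e2 t ht).trans (h1.2 t ht)⟩
  exact Function.argminOn_le (fun c : G × G → ZMod 2 => (sp1 S c).ncard) _ h2

theorem grow [DecidableEq G] (hS : Gen S) (hC : Coh S C) (hc : Mn S c) {x s : G} (hs : s ∈ S)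
    (he : c (x, x * s) ≠ 0) (r : ℕ)
    (hz : ∀ T, Tri S T → x⁻¹ * T.1 ∈ S ^ (r + 1) → x⁻¹ * T.2.1 ∈ S ^ (r + 1) →
      x⁻¹ * T.2.2 ∈ S ^ (r + 1) → d1 c T = 0) :
    r + 1 ≤ {e | e ∈ sp1 S c ∧ x⁻¹ * e.1 ∈ S ^ (r + 1) ∧ x⁻¹ * e.2 ∈ S ^ (r + 1)}.ncard := by
  have hf : ∀ r, {e | e ∈ sp1 S c ∧ x⁻¹ * e.1 ∈ S ^ r ∧ x⁻¹ * e.2 ∈ S ^ r}.Finite :=
    fun r => hc.1.subset fun e he => he.1
  induction r with
  | zero =>
    refine (Set.ncard_pos (hf _)).2 ⟨(x, x * s), ⟨?_, he⟩, ?_, ?_⟩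
    · simpa [Edge] using hs
    · simpa using hS.one
    · simpa using hs
  | succ r ih =>
    have hm : S ^ (r + 1) ⊆ S ^ (r + 1 + 1) := Finset.pow_subset_pow_right hS.one (Nat.le_succ _)
    have h1 := ih fun T hT a1 a2 a3 => hz T hT (hm a1) (hm a2) (hm a3)
    set K := {e | e ∈ sp1 S c ∧ x⁻¹ * e.1 ∈ S ^ (r + 1) ∧ x⁻¹ * e.2 ∈ S ^ (r + 1)} with hK
    have hKc : K ⊆ sp1 S c := fun e he => he.1
    have h2 := iso hS hC hc hKc
    obtain ⟨T, hT⟩ : (sp2 S (d1 (ind K))).Nonempty := by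
      refine Set.nonempty_of_ncard_ne_zero fun h0 => ?_
      rw [h0] at h2
      have : K.ncard ^ 2 = 0 := by simpa using h2
      rw [pow_eq_zero_iff two_ne_zero] at this
      omega
    obtain ⟨e, hek, ⟨s1, s2, s3⟩, -⟩ := exists_edge hS hT
    have key : ∀ a, e.1⁻¹ * a ∈ S → x⁻¹ * a ∈ S ^ (r + 1 + 1) := fun a ha => by
      have := Finset.mul_mem_mul hek.2.1 ha
      rw [← pow_succ] at this
      simpa [mul_assoc] using this
    obtain ⟨e', b1, b2, b3⟩ := exists_new hKc hT (hz T hT.1 (key _ s1) (key _ s2) (key _ s3))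
      (P := fun a => x⁻¹ * a ∈ S ^ (r + 1 + 1)) (key _ s1) (key _ s2) (key _ s3)
    refine Nat.succ_le_of_lt (h1.trans_lt (Set.ncard_lt_ncard ⟨?_, fun h => ?_⟩ (hf _)))
    · exact fun e he => ⟨he.1, hm he.2.1, hm he.2.2⟩
    · exact b2 (h ⟨b1, b3⟩)

end LemNL

open LemNL in
theorem lemN_stmt : LemNStmt := by
  intro G _ S C hS hC v hv _
  classical
  obtain ⟨M, hM⟩ := lemM hS hC hv
  refine ⟨S ^ (M + 1), fun F hF => ?_⟩
  have z1 : ∀ a b : ZMod 2, a + b ≠ 0 ↔ a ≠ b := by decide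
  have z3 : ∀ a : ZMod 2, a + a = 0 := by decide
  let w : G × G → ZMod 2 := fun e => if v e.1 ≠ 0 ∧ v e.2 ≠ 0 then d0 F e else 0
  have hw1 : ∀ a b, v a ≠ 0 → v b ≠ 0 → w (a, b) = F a + F b := fun a b ha hb => if_pos ⟨ha, hb⟩
  have hw : (sp1 S w).Finite := hF.subset fun e he => by
    by_cases h : v e.1 ≠ 0 ∧ v e.2 ≠ 0
    · exact ⟨he.1, (z1 _ _).1 (hw1 _ _ h.1 h.2 ▸ he.2), h⟩
    · exact absurd (if_neg h) he.2
  obtain ⟨c, hc, hcw⟩ := exists_mn hw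
  have hz : ∀ T, Tri S T → 0 < v T.1 → 0 < v T.2.1 → 0 < v T.2.2 → d1 c T = 0 := by
    intro T hT a1 a2 a3
    rw [hcw T hT, d1, hw1 _ _ a2.ne' a3.ne', hw1 _ _ a1.ne' a3.ne', hw1 _ _ a1.ne' a2.ne']
    linear_combination z3 (F T.1 + F T.2.1 + F T.2.2)
  obtain ⟨A0, hA0⟩ := hC.c0 (fun e => c e + w e) fun t ht => by
    have h := hcw t ht
    simp only [d1] at h ⊢
    linear_combination h + z3 (w (t.2.1, t.2.2) + w (t.1, t.2.2) + w (t.1, t.2.1))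
  obtain ⟨A, hA, hAf⟩ : ∃ A : G → ZMod 2, (∀ e, Edge S e → c e + w e = d0 A e) ∧
      {x | A x ≠ 0}.Finite := by
    rcases hC.c1 A0 ((hc.1.union hw).subset fun e he => by
      by_contra hne
      simp only [Set.mem_union, sp1, Set.mem_ofPred_eq, not_or, not_and, not_not] at hne
      exact he.2 (by rw [← hA0 e he.1, hne.1 he.1, hne.2 he.1, add_zero])) with h | h
    · exact ⟨A0, hA0, h⟩
    · refine ⟨fun x => A0 x + 1, fun e he => ?_, h.subset fun x hx => (z1 _ _).1 hx⟩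
      rw [hA0 e he, d0, d0]
      linear_combination -z3 1
  refine ⟨fun x => F x + A x, hAf.subset fun x hx h0 => hx (by simp only [h0, add_zero]),
    fun x hx s hs => ?_⟩
  have hx' : ∀ a, x⁻¹ * a ∈ S ^ (M + 1) → v a = 1 := fun a ha => by simpa using hx _ ha
  have hc0 : c (x, x * s) = 0 := by
    by_contra he
    have h1 := grow hS hC hc hs he M fun T hT a1 a2 a3 =>
      hz T hT (by rw [hx' _ a1]; exact one_pos) (by rw [hx' _ a2]; exact one_pos)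
        (by rw [hx' _ a3]; exact one_pos)
    have h2 := h1.trans (Set.ncard_le_ncard (t := lev S c v 1)
      (fun e he => ⟨he.1, (hx' _ he.2.1).ge, (hx' _ he.2.2).ge⟩) (hc.1.subset fun e he => he.1))
    have h3 := hM c hc hz
    omega
  have hm : S ^ 1 ⊆ S ^ (M + 1) := Finset.pow_subset_pow_right hS.one (by omega)
  have v1 := hx' x (hm (by simpa using hS.one))
  have v2 := hx' (x * s) (hm (by simpa using hs))
  have h1 := hA (x, x * s) (by simpa [Edge] using hs)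
  rw [hc0, hw1 _ _ (by rw [v1]; exact one_ne_zero) (by rw [v2]; exact one_ne_zero), d0] at h1
  linear_combination h1 + z3 (A (x * s)) - z3 (F x)

end Pool.Agent.MP_4f4d9f_gt.Hy
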