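import Pool.Agent.MP_4f4d9f_gt.Hy.IfB

/-! The neighbourhood systems of points at infinity. -/

namespace Pool.Agent.MP_4f4d9f_gt.Hy

open Filter Topology

namespace NbL

variable {G : Type} [Group G] {S : Finset G} {u : G → ℝ}

/-- The component of `A` that contains the tail of `m`. -/
def CC (m : Pt S u) (A : Set G) : Set G := {x | ∀ᶠ n in atTop, Conn S A (m.z n) x}

variable {m z : Pt S u} {A B Φ Ψ : Set G} {x y : G} {T T' : Finset G} {δ δ' : ℝ}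

theorem nn_eq (m : Pt S u) (T : Finset G) (δ : ℝ) (Φ : Set G) :
    NN m T δ Φ = CC m (UU m T δ \ Φ) := rfl

theorem sub (h : x ∈ CC m A) : x ∈ A := h.exists.elim fun _ e => e.right

theorem mono (h : A ⊆ B) : CC m A ⊆ CC m B := fun _ hx => Eventually.mono hx fun _ e => e.mono h

theorem step (h : x ∈ CC m A) (e : Conn S A x y) : y ∈ CC m A :=
  Eventually.mono h fun _ e' => e'.trans e

theorem edge (h : x ∈ CC m A) (hy : y ∈ A) (e : x⁻¹ * y ∈ S) : y ∈ CC m A :=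
  step h (Conn.single (sub h) hy e)

theorem tail (hS : Gen S) (h : ∀ᶠ n in atTop, m.z n ∈ A) : ∀ᶠ n in atTop, m.z n ∈ CC m A := by
  obtain ⟨k, hk⟩ := m.conn h
  exact eventually_atTop.2 ⟨k, fun n hn => eventually_atTop.2 ⟨k, fun n' hn' =>
    ((hk n' hn').symm hS).trans (hk n hn)⟩⟩

theorem conn (hS : Gen S) (hx : x ∈ CC m A) (hy : y ∈ CC m A) : Conn S (CC m A) x y := by
  obtain ⟨n, e1, e2⟩ := (Eventually.and hx hy).exists
  exact ((e1.symm hS).trans e2).comp.mono fun _ e => step hx e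

theorem absorb (hS : Gen S) (h : ∀ᶠ n in atTop, z.z n ∈ A) (h' : ∃ᶠ n in atTop, z.z n ∈ CC m A) :
    ∀ᶠ n in atTop, z.z n ∈ CC m A := by
  obtain ⟨k, hk⟩ := z.conn h
  obtain ⟨n, e1, e2⟩ := (h'.and_eventually (eventually_ge_atTop k)).exists
  exact eventually_atTop.2 ⟨k, fun n' hn' => step e1 (((hk n e2).symm hS).trans (hk n' hn'))⟩

theorem cc_eq (hS : Gen S) (h : ∀ᶠ n in atTop, z.z n ∈ CC m A) : CC m A = CC z A := by
  refine Set.Subset.antisymm (fun x hx => h.mono fun n e => (conn hS e hx).mono fun _ => sub)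
    fun x hx => ?_
  obtain ⟨n, e1, e2⟩ := (h.and hx).exists
  exact step e1 e2

theorem uu_mono (hT : T ⊆ T') (hδ : δ' ≤ δ) : UU m T' δ' ⊆ UU m T δ :=
  fun _ hx g hg => (hx g (hT hg)).trans_le hδ

theorem nn_mono (hT : T ⊆ T') (hδ : δ' ≤ δ) (hΦ : Φ ⊆ Ψ) : NN m T' δ' Ψ ⊆ NN m T δ Φ :=
  mono (Set.sdiff_subset_sdiff (uu_mono hT hδ) hΦ)

theorem nn_sub (h : x ∈ NN m T δ Φ) : x ∈ UU m T δ \ Φ := sub (m := m) h

theorem ev_uu (h : ∀ g ∈ T, |z.val g - m.val g| < δ) (hΦ : Φ.Finite) :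
    ∀ᶠ n in atTop, z.z n ∈ UU m T δ \ Φ :=
  ((eventually_all_finset T).2 fun g hg =>
    ((z.conv g).sub_const (m.val g)).abs.eventually (gt_mem_nhds (h g hg))).and (z.notMem hΦ)

theorem nn_tail (hS : Gen S) (hδ : 0 < δ) (hΦ : Φ.Finite) :
    ∀ᶠ n in atTop, m.z n ∈ NN m T δ Φ :=
  tail hS (ev_uu (fun g _ => by simpa using hδ) hΦ)

theorem val_le (h : ∃ᶠ n in atTop, z.z n ∈ UU m T δ) {g : G} (hg : g ∈ T) :
    |z.val g - m.val g| ≤ δ := by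
  by_contra hc
  obtain ⟨n, e1, e2⟩ := (h.and_eventually
    (((z.conv g).sub_const (m.val g)).abs.eventually (lt_mem_nhds (not_le.1 hc)))).exists
  exact lt_asymm (e1 g hg) e2

theorem val_eq (h : Near m z) : z.val = m.val := by
  funext g
  refine eq_of_forall_dist_le fun δ hδ => ?_
  exact val_le (T := {g}) ((h _ ⟨{g}, δ, ∅, hδ, Set.finite_empty, rfl⟩).mono fun _ e =>
    (nn_sub e).1).frequently (Finset.mem_singleton_self g)

theorem exists_M (hu : Dir S u) (m : Pt S u) (T : Finset G) :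
    ∃ M : G → ℝ, Dir S M ∧ ∀ δ : ℝ, 0 < δ → ∀ x, x ∈ UU m T δ ↔ M x < δ := by
  classical
  induction T using Finset.induction_on with
  | empty => exact ⟨fun _ => 0, dir_const 0, fun δ hδ x => by simp [UU, hδ]⟩
  | insert g T _ ih =>
    obtain ⟨M, h1, h2⟩ := ih
    refine ⟨fun x => max |u (g * x) - m.val g| (M x),
      ((hu.mul_left g).sub (dir_const _)).abs.max h1, fun δ hδ x => ?_⟩
    rw [max_lt_iff, ← h2 δ hδ x]
    exact Finset.forall_mem_insert _ _ _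

theorem cl_zero {c d r : ℝ} (hc : 0 ≤ c) (h : d ≤ r) : clamp (c * (d - r)) = 0 :=
  clamp_of_le (mul_nonpos_of_nonneg_of_nonpos hc (sub_nonpos.2 h))

theorem cl_one {c d r : ℝ} (hc : 0 < c) (hd : 0 < d) (h : r ≤ d - d / c) :
    clamp (c / d * (d - r)) = 1 := by
  refine clamp_of_ge ?_
  have h1 : c / d * (d / c) = 1 := by field_simp
  have h2 := mul_le_mul_of_nonneg_left (le_sub_comm.1 h) (div_pos hc hd).le
  linarith

theorem diff_sub : NN m T δ (Φ ∪ Ψ) ⊆ NN m T δ Φ \ Ψ := fun _ hx =>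
  ⟨nn_mono subset_rfl le_rfl Set.subset_union_left hx, fun e => (nn_sub hx).2 (Or.inr e)⟩

theorem edges_finite (hS : Gen S) (hΨ : Ψ.Finite) :
    {e : G × G | Edge S e ∧ (e.1 ∈ Ψ ∨ e.2 ∈ Ψ)}.Finite := by
  have h1 : ((fun p : G × G => (p.1, p.1 * p.2)) '' (Ψ ×ˢ (S : Set G))).Finite :=
    (hΨ.prod S.finite_toSet).image _
  refine (h1.union (h1.image Prod.swap)).subset ?_
  rintro ⟨a, b⟩ ⟨e1, e2 | e2⟩
  · exact Or.inl ⟨(a, a⁻¹ * b), ⟨e2, e1⟩, by simp⟩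
  · exact Or.inr ⟨(b, a), ⟨(b, b⁻¹ * a), ⟨e2, hS.symm e1⟩, by simp⟩, rfl⟩

theorem unif (hS : Gen S) (hu : Dir S u) (hL : LemN S) (m : Pt S u) (T : Finset G) (hδ : 0 < δ)
    (hΦ : Φ.Finite) : ∃ N₀ ∈ nb m, ∀ Ψ : Set G, Ψ.Finite →
      ∃ N' ∈ nb m, N' ⊆ NN m T δ Φ \ Ψ ∧ (N₀ \ N').Finite := by
  classical
  obtain ⟨M, hM, hU⟩ := exists_M hu m T
  obtain ⟨W, hW⟩ := hL (fun x => clamp (4 / δ * (δ - M x)))
    (((dir_const δ).sub hM).const_mul _).clamp fun _ => clamp_mem _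
  have h0 : (⋃ w ∈ W, {x | δ / 4 ≤ |M (x * w) - M x|}).Finite :=
    W.finite_toSet.biUnion fun w _ => hM.finite hS w (by positivity)
  refine ⟨_, ⟨T, δ / 2, _, half_pos hδ, hΦ.union h0, rfl⟩, fun Ψ hΨ =>
    ⟨_, ⟨T, δ, _, hδ, hΦ.union hΨ, rfl⟩, diff_sub, ?_⟩⟩
  have hv : ∀ x, clamp (4 / δ * (δ - M x)) ≠ 0 → x ∈ UU m T δ := fun x hx =>
    (hU δ hδ x).2 (not_le.1 fun e => hx (cl_zero (by positivity) e))
  obtain ⟨F', h1, h2⟩ := hW (fun x => if x ∈ NN m T δ (Φ ∪ Ψ) then 1 else 0) (by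
    refine (edges_finite hS (hΦ.union hΨ)).subset ?_
    rintro ⟨a, b⟩ ⟨e1, e2, e3, e4⟩
    refine ⟨e1, ?_⟩
    by_contra hc
    obtain ⟨c1, c2⟩ := not_or.1 hc
    have : a ∈ NN m T δ (Φ ∪ Ψ) ↔ b ∈ NN m T δ (Φ ∪ Ψ) :=
      ⟨fun e => edge (m := m) e ⟨hv b e4, c2⟩ e1,
        fun e => edge (m := m) e ⟨hv a e3, c1⟩ (hS.symm e1)⟩
    exact e2 (by simp only [this]))
  refine h1.subset fun x hx => ?_
  obtain ⟨n, ⟨e1, e2⟩, e3⟩ := ((Eventually.and hx.1 (nn_tail hS hδ (hΦ.union hΨ))).and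
    (m.notMem h1)).exists
  have e4 : F' x = F' (m.z n) := e1.const fun a ha b _ e => by
    have := h2 a (fun w hw => ?_) _ e
    · simpa using this
    · have a1 := (hU _ (half_pos hδ) a).1 ha.1
      have a2 : ¬ δ / 4 ≤ |M (a * w) - M a| := fun e' => ha.2 (Or.inr (Set.mem_biUnion hw e'))
      have a3 := (abs_lt.1 (not_le.1 a2)).2
      exact cl_one (by norm_num) hδ (by linarith)
  have e5 : (1 : ZMod 2) = F' (m.z n) := by
    have := not_not.1 e3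
    rwa [if_pos e2] at this
  show (if x ∈ NN m T δ (Φ ∪ Ψ) then (1 : ZMod 2) else 0) ≠ F' x
  rw [if_neg hx.2, e4, ← e5]
  exact zero_ne_one

theorem bump (hS : Gen S) (hu : Dir S u) (m : Pt S u) (T : Finset G) (hδ : 0 < δ)
    (hΦ : Φ.Finite) : ∃ N₀ ∈ nb m, ∃ φ : G → ℝ, Dir S φ ∧ I01 φ ∧
      (∀ x ∈ N₀, φ x = 1) ∧ ∀ x ∉ NN m T δ Φ, φ x = 0 := by
  classical
  obtain ⟨M, hM, hU⟩ := exists_M hu m T
  have hg : Dir S fun x => clamp (2 / δ * (δ - M x)) := (((dir_const δ).sub hM).const_mul _).clamp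
  have key : ∀ a b, a⁻¹ * b ∈ S → a ∈ NN m T δ Φ → b ∉ NN m T δ Φ → b ∉ Φ →
      clamp (2 / δ * (δ - M b)) = 0 := fun a b e ha hb hb' =>
    cl_zero (by positivity) (not_lt.1 fun e' => hb (edge (m := m) ha ⟨(hU δ hδ b).2 e', hb'⟩ e))
  refine ⟨_, ⟨T, δ / 2, Φ, half_pos hδ, hΦ, rfl⟩,
    fun x => if x ∈ NN m T δ Φ then clamp (2 / δ * (δ - M x)) else 0,
    hg.of_eventually_le fun s hs => ?_, fun x => ?_, fun x hx => ?_, fun x hx => if_neg hx⟩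
  · have h2 : ((fun x => x * s) ⁻¹' Φ).Finite := hΦ.preimage (mul_left_injective s).injOn
    filter_upwards [hΦ.compl_mem_cofinite, h2.compl_mem_cofinite] with x c1 c2
    have e : x⁻¹ * (x * s) ∈ S := by simpa using hs
    by_cases a1 : x ∈ NN m T δ Φ <;> by_cases a2 : x * s ∈ NN m T δ Φ
    · rw [if_pos a1, if_pos a2]
    · rw [if_pos a1, if_neg a2, key _ _ e a1 a2 c2]
    · rw [if_neg a1, if_pos a2, key _ _ (hS.symm e) a2 a1 c1]
    · rw [if_neg a1, if_neg a2, sub_self, abs_zero]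
      exact abs_nonneg _
  · by_cases a1 : x ∈ NN m T δ Φ
    · simpa only [if_pos a1] using clamp_mem _
    · simp only [if_neg a1]
      exact ⟨le_rfl, zero_le_one⟩
  · have a1 := (hU _ (half_pos hδ) x).1 (nn_sub hx).1
    simp only [if_pos (nn_mono subset_rfl (half_le_self hδ.le) subset_rfl hx)]
    exact cl_one two_pos hδ (by linarith)

theorem same (hS : Gen S) (h : Near m z) (T : Finset G) (hδ : 0 < δ) (hΦ : Φ.Finite) :
    NN m T δ Φ = NN z T δ Φ := by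
  have e : UU z T δ = UU m T δ := by simp only [UU, val_eq h]
  rw [nn_eq, nn_eq, e]
  exact cc_eq hS (h _ ⟨T, δ, Φ, hδ, hΦ, rfl⟩)

theorem sep (hS : Gen S) (hδ : 0 < δ) (h : ¬ ∀ᶠ n in atTop, z.z n ∈ NN m T δ Φ) :
    Disjoint (NN m T (δ / 3) Φ) (NN z T (δ / 3) Φ) := by
  refine Set.disjoint_left.2 fun x h1 h2 => h ?_
  have e : UU z T (δ / 3) ⊆ UU m T δ := fun y hy g hg => by
    have a1 := abs_lt.1 ((nn_sub h1).1 g hg)
    have a2 := abs_lt.1 ((nn_sub h2).1 g hg)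
    have a3 := abs_lt.1 (hy g hg)
    exact abs_lt.2 ⟨by linarith [a1.1, a2.2, a3.1], by linarith [a1.2, a2.1, a3.2]⟩
  have h3 : x ∈ NN m T δ Φ := nn_mono subset_rfl (by linarith) subset_rfl h1
  exact Eventually.mono h2 fun n e' =>
    step (m := m) h3 ((e'.mono (Set.sdiff_subset_sdiff_left e)).symm hS)

end NbL

theorem nb_stmt : NbStmt := by
  classical
  intro G _ S u hS hu hL
  refine ⟨fun m => ⟨_, ∅, 1, ∅, one_pos, Set.finite_empty, rfl⟩, ?_, ?_, ?_, ?_, ?_, ?_, ?_, ?_, ?_,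
    fun m m' h => NbL.val_eq h⟩
  · rintro m _ ⟨T, δ, Φ, hδ, hΦ, rfl⟩
    exact NbL.nn_tail hS hδ hΦ
  · rintro m _ ⟨T, δ, Φ, hδ, hΦ, rfl⟩ x hx y hy
    exact NbL.conn (m := m) hS hx hy
  · rintro m _ ⟨T, δ, Φ, hδ, hΦ, rfl⟩ _ ⟨T', δ', Φ', hδ', hΦ', rfl⟩
    exact ⟨_, ⟨T ∪ T', min δ δ', Φ ∪ Φ', lt_min hδ hδ', hΦ.union hΦ', rfl⟩, Set.subset_inter
      (NbL.nn_mono Finset.subset_union_left (min_le_left _ _) Set.subset_union_left)
      (NbL.nn_mono Finset.subset_union_right (min_le_right _ _) Set.subset_union_right)⟩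
  · rintro m _ ⟨T, δ, Φ, hδ, hΦ, rfl⟩ Ψ hΨ
    exact ⟨_, ⟨T, δ, _, hδ, hΦ.union hΨ, rfl⟩, NbL.diff_sub⟩
  · rintro m _ ⟨T, δ, Φ, hδ, hΦ, rfl⟩
    exact NbL.unif hS hu hL m T hδ hΦ
  · rintro m _ ⟨T, δ, Φ, hδ, hΦ, rfl⟩
    exact NbL.bump hS hu m T hδ hΦ
  · rintro m _ ⟨T, δ, Φ, hδ, hΦ, rfl⟩
    refine ⟨_, ⟨T, δ / 2, Φ, half_pos hδ, hΦ, rfl⟩, fun z hz => NbL.absorb (m := m) hS
      (NbL.ev_uu (fun g hg => ?_) hΦ)
      (hz.mono fun _ e => NbL.nn_mono subset_rfl (half_le_self hδ.le) subset_rfl e)⟩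
    exact (NbL.val_le (hz.mono fun _ e => (NbL.nn_sub e).1) hg).trans_lt (half_lt_self hδ)
  · intro m m' h
    ext N
    constructor
    · rintro ⟨T, δ, Φ, hδ, hΦ, rfl⟩
      exact ⟨T, δ, Φ, hδ, hΦ, NbL.same hS h T hδ hΦ⟩
    · rintro ⟨T, δ, Φ, hδ, hΦ, rfl⟩
      exact ⟨T, δ, Φ, hδ, hΦ, (NbL.same hS h T hδ hΦ).symm⟩
  · intro m m' h
    simp only [Near, not_forall] at h
    obtain ⟨_, ⟨T, δ, Φ, hδ, hΦ, rfl⟩, h2⟩ := h
    exact ⟨_, ⟨T, δ / 3, Φ, by positivity, hΦ, rfl⟩, _, ⟨T, δ / 3, Φ, by positivity, hΦ, rfl⟩,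
      NbL.sep hS hδ h2⟩

end Pool.Agent.MP_4f4d9f_gt.Hy
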