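import Pool.Agent.MP_4f4d9f_gt.Hy.IfB

/-! Separating functions for two points at infinity. -/

namespace Pool.Agent.MP_4f4d9f_gt.Hy

open Filter Topology

namespace SepL

variable {G : Type} [Group G] {S : Finset G} {u : G → ℝ}

omit [Group G] in
theorem sub_of_bump {N N₀ : Set G} {φ : G → ℝ} (h1 : ∀ x ∈ N₀, φ x = 1) (h0 : ∀ x ∉ N, φ x = 0) :
    N₀ ⊆ N := fun x hx => by
  by_contra h
  exact one_ne_zero ((h1 x hx).symm.trans (h0 x h))

/-- Finitely many edges meet a finite set. -/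
theorem edges_finite (hS : Gen S) {Φ : Set G} (hΦ : Φ.Finite) :
    {e : G × G | Edge S e ∧ (e.1 ∈ Φ ∨ e.2 ∈ Φ)}.Finite := by
  have h := hΦ.prod S.finite_toSet
  refine ((h.image fun q => (q.1, q.1 * q.2)).union (h.image fun q => (q.1 * q.2, q.1))).subset ?_
  rintro ⟨x, y⟩ ⟨e, h1 | h1⟩
  · exact Or.inl ⟨(x, x⁻¹ * y), ⟨h1, e⟩, by simp⟩
  · exact Or.inr ⟨(y, y⁻¹ * x), ⟨h1, hS.symm e⟩, by simp⟩

/-- The exceptional set is finite. -/
theorem bad_finite (hS : Gen S) {ψ : G → ℝ} (hψ : Dir S ψ) (W : Finset G) :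
    {x | (∃ w ∈ W, ψ (x * w) = 1) ∧ ∃ s ∈ S, ψ (x * s) = 0}.Finite := by
  have h := fun w => hψ.finite hS w (ε := 1 / 2) one_half_pos
  refine ((W.finite_toSet.biUnion fun w _ => h w).union
    (S.finite_toSet.biUnion fun w _ => h w)).subset ?_
  rintro x ⟨⟨w, hw, e1⟩, s, hs, e2⟩
  rcases le_total (ψ x) (1 / 2) with e | e
  · have : 1 / 2 ≤ |ψ (x * w) - ψ x| := le_abs.2 (Or.inl (by linarith))
    exact Or.inl (Set.mem_biUnion hw this)
  · have : 1 / 2 ≤ |ψ (x * s) - ψ x| := le_abs.2 (Or.inr (by linarith))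
    exact Or.inr (Set.mem_biUnion hs this)

open Classical in
/-- Cutting a Dirichlet function along a component. -/
theorem dir_cut (hS : Gen S) {ψ : G → ℝ} (hψ : Dir S ψ) {Z : Set G} (a : G)
    (h : {x | x ∉ Z ∧ ∃ s ∈ S, ψ (x * s) ≠ 1}.Finite) :
    Dir S fun x => if Conn S Z a x then ψ x else 1 := by
  refine hψ.of_eventually_le fun s hs => ?_
  have h1 := h.compl_mem_cofinite
  filter_upwards [h1, (Function.Injective.tendsto_cofinite (mul_left_injective s)) h1]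
    with x e1 e2
  by_cases c1 : Conn S Z a x <;> by_cases c2 : Conn S Z a (x * s)
  · rw [if_pos c1, if_pos c2]
  · have e : ψ x = 1 := by
      by_contra e
      exact e2 ⟨fun hz => c2 (c1.tail hz (by simpa using hs)), s⁻¹, hS.inv s hs, by simpa using e⟩
    rw [if_pos c1, if_neg c2, e, sub_self, abs_zero]
    exact abs_nonneg _
  · have e : ψ (x * s) = 1 := by
      by_contra e
      exact e1 ⟨fun hz => c1 (c2.tail hz (by simpa using hS.inv s hs)), s, hs, e⟩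
    rw [if_neg c1, if_pos c2, e, sub_self, abs_zero]
    exact abs_nonneg _
  · rw [if_neg c1, if_neg c2, sub_self, abs_zero]
    exact abs_nonneg _

/-- A component of the deep set is almost contained in a component of the large set. -/
theorem comp_finite (hS : Gen S) (hL : LemN S) {v : G → ℝ} (hv : Dir S v) (h01 : I01 v) :
    ∃ W : Finset G, ∀ (B Φ : Set G), (∀ x, v x ≠ 0 → x ∈ B) → Φ.Finite → ∀ a b : G,
      {x | Conn S {x | ∀ w ∈ W, v (x * w) = 1} a x ∧ Conn S (B \ Φ) b x}.Infinite →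
      {x | Conn S {x | ∀ w ∈ W, v (x * w) = 1} a x ∧ ¬ Conn S (B \ Φ) b x}.Finite := by
  classical
  obtain ⟨W, hW⟩ := hL v hv h01
  refine ⟨W, fun B Φ hB hΦ a b hi => ?_⟩
  obtain ⟨F, h1, h2⟩ := hW (fun x => if Conn S (B \ Φ) b x then 1 else 0)
    ((edges_finite hS hΦ).subset (by
      rintro ⟨x, y⟩ ⟨e, e1, e2, e3⟩
      refine ⟨e, ?_⟩
      by_contra hc
      rw [not_or] at hc
      exact e1 (if_congr ⟨fun c => c.tail ⟨hB _ e3, hc.2⟩ e,
        fun c => c.tail ⟨hB _ e2, hc.1⟩ (hS.symm e)⟩ rfl rfl)))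
  have h3 : ∀ x, Conn S {x | ∀ w ∈ W, v (x * w) = 1} a x → F x = F a := fun x hx =>
    hx.const fun c hc d _ e => by simpa using h2 c hc _ e
  obtain ⟨y, ⟨y1, y2⟩, y3⟩ := (hi.sdiff h1).nonempty
  have h4 : F a = 1 := by
    rw [← h3 y y1]
    by_contra e
    exact y3 fun e' => e (e'.symm.trans (if_pos y2))
  refine h1.subset fun x hx e => ?_
  rw [if_neg hx.2, h3 x hx.1, h4] at e
  exact zero_ne_one e

end SepL

open SepL in
theorem sep_stmt : SepStmt := by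
  classical
  intro G _ S u hS hL hN hT m m' hm
  obtain ⟨NA, a1, a2⟩ := hT m m' hm
  obtain ⟨N1, b1, ψ, b2, b3, b4, b5⟩ := hN.bump m NA a1
  obtain ⟨Nd, c1, c2⟩ := hN.freq m N1 b1
  obtain ⟨Ne, d1, ψ2, d2, -, d4, d5⟩ := hN.bump m N1 b1
  obtain ⟨Nc, e1, e2⟩ := hN.inter m Nd c1 Ne d1
  obtain ⟨N0, f1, φ, f2, f3, f4, f5⟩ := hN.bump m Nc e1
  have s1 := sub_of_bump b4 b5
  have s2 := sub_of_bump d4 d5
  have s3 := sub_of_bump f4 f5
  obtain ⟨W, hW⟩ := comp_finite hS hL ((dir_const 1).sub f2)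
    fun x => ⟨by linarith [(f3 x).2], by linarith [(f3 x).1]⟩
  generalize hZ : {x | ∀ w ∈ W, 1 - φ (x * w) = 1} = Z at hW
  have hΦ : {x | x ∉ Z ∧ ∃ s ∈ S, x * s ∉ N1}.Finite := by
    refine (bad_finite hS d2 W).subset ?_
    rintro x ⟨h1, s, hs, h2⟩
    refine ⟨?_, s, hs, d5 _ h2⟩
    by_contra h3
    refine h1 (hZ ▸ fun w hw => ?_)
    rw [f5 _ fun h4 => h3 ⟨w, hw, d4 _ (e2 h4).2⟩, sub_zero]
  have hA : NAᶜ \ {x | x ∉ Z ∧ ∃ s ∈ S, x * s ∉ N1} ⊆ Z := fun x hx => by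
    by_contra h
    exact hx.2 ⟨h, 1, hS.one, fun h1 => hx.1 (s1 (by simpa using h1))⟩
  have t1 := (a2 m' hN.not_side_self _ hΦ).left
  obtain ⟨k, hk⟩ := m'.conn (t1.mono fun n hn => hA hn)
  have t2 := eventually_atTop.2 ⟨k, hk⟩
  refine ⟨fun x => if Conn S Z (m'.z k) x then ψ x else 1,
    dir_cut hS b2 _ (hΦ.subset ?_), fun x => ?_, fun z hz => ?_, fun z hz => ?_⟩
  · rintro x ⟨h1, s, hs, h2⟩
    exact ⟨h1, s, hs, fun h => h2 (b4 _ h)⟩
  · dsimp only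
    split_ifs
    · exact b3 x
    · exact ⟨zero_le_one, le_rfl⟩
  · by_cases hf : ∃ᶠ n in atTop, z.z n ∈ N0
    · filter_upwards [c2 z (hf.mono fun n hn => (e2 (s3 hn)).1)] with n hn
      rw [b4 _ hn, ite_self]
    obtain ⟨Φ, g1, g2⟩ : ∃ Φ : Set G, Φ.Finite ∧ ¬ Same (N0ᶜ \ Φ) m' z := by
      by_contra h
      exact hz ⟨N0, f1, fun Φ g1 => by_contra fun g2 => h ⟨Φ, g1, g2⟩⟩
    obtain ⟨j, hj⟩ := m'.conn (A := N0ᶜ \ Φ) ((t1.and (m'.notMem g1)).mono fun n hn =>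
      ⟨fun h => hn.1.1 (s1 (s2 (e2 (s3 h)).2)), hn.2⟩)
    have t3 := eventually_atTop.2 ⟨j, hj⟩
    have t4 := hW N0ᶜ Φ (fun x hx h => hx (by rw [f4 x h, sub_self])) g1 (m'.z k) (m'.z j)
      (m'.infinite (t2.and t3).frequently)
    obtain ⟨i, hi⟩ := z.conn (A := N0ᶜ \ Φ) ((not_frequently.1 hf).and (z.notMem g1))
    filter_upwards [z.notMem t4, eventually_ge_atTop i] with n h1 h2
    refine if_neg fun h3 => h1 ⟨h3, fun h4 => g2 ⟨m'.z j, t3, ?_⟩⟩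
    exact eventually_atTop.2 ⟨i, fun l hl => (h4.trans ((hi n h2).symm hS)).trans (hi l hl)⟩
  · obtain ⟨x, h1, h2⟩ := a2 z hz _ hΦ
    obtain ⟨n, h3, h4⟩ := (h1.and t2).exists
    filter_upwards [h2] with l hl
    rw [if_pos (h4.trans (((h3.symm hS).trans hl).mono hA)), b5 _ hl.right.1]

end Pool.Agent.MP_4f4d9f_gt.Hy
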