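import Pool.Agent.MP_4f4d9f_gt.Hy.IfB

/-! An increasing sequence of half spaces that exhausts a half space. -/

namespace Pool.Agent.MP_4f4d9f_gt.Hy

open Filter Topology

namespace SeqL

variable {G : Type} [Group G] {S : Finset G} {u : G → ℝ} {C : ℕ}

theorem no_end (hc : Ctx S u C) {A : Set G} {p q : Pt S u} (hp : ∀ᶠ n in atTop, p.z n ∈ A)
    (hq : ∀ᶠ n in atTop, q.z n ∉ A) (e : ∀ s ∈ S, {x | x ∈ A ∧ x * s ∉ A}.Finite) : False :=
  (hc.coh.set hc.gen e).elim (p.infinite hp.frequently) (q.infinite (A := Aᶜ) hq.frequently)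

theorem nest_lt (hc : Ctx S u C) {h h' f : G → ℝ} (e : Nest S h h' f) {p q : Pt S u}
    (hp : ∀ᶠ n in atTop, f (p.z n) = 1) (hq : ∀ᶠ n in atTop, f (q.z n) = 0) : h 1 < h' 1 := by
  obtain ⟨hf, -, h1, h2⟩ := e
  have d1 : Dir S fun y => clamp (3 * f y - 2) := ((hf.const_mul 3).sub (dir_const 2)).clamp
  have d2 : Dir S fun y => clamp (3 * f y) := (hf.const_mul 3).clamp
  have mono := hc.hm_mono d1 d2 fun _ => clamp_mono (by linarith)
  by_contra hlt
  have e1 := h1 1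
  have e2 := h2 1
  have e3 := mono 1
  have hz := hc.gen.eq_of_min (x₀ := 1)
    (f := fun x => Hm S (fun y => clamp (3 * f y)) x - Hm S (fun y => clamp (3 * f y - 2)) x)
    (fun x => (((hc.harm d2).sub (hc.harm d1)) x).le)
    fun x => by linarith [mono x, not_lt.1 hlt]
  have hs : Sq fun x => clamp (3 * f x) - clamp (3 * f x - 2) := by
    convert (hc.sq d2).sub (hc.sq d1) using 2 with x
    linarith [hz x, not_lt.1 hlt]
  refine no_end hc (A := {x | 1 / 2 < f x}) (p := p) (q := q) (hp.mono fun n hn => ?_)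
    (hq.mono fun n hn => ?_) fun s _ => ?_
  · rw [Set.mem_ofPred_eq, hn]; norm_num
  · rw [Set.mem_ofPred_eq, hn]; norm_num
  · refine ((hf.finite hc.gen s (ε := 1 / 6) (by norm_num)).union
      (hs.finite (ε := 1) one_pos)).subset fun x hx => ?_
    simp only [Set.mem_union, Set.mem_ofPred_eq, not_lt] at hx ⊢
    rcases le_total (f x) (2 / 3) with hb | hb
    · right
      rw [clamp_of_ge (by linarith [hx.1]), clamp_of_le (by linarith)]
      norm_num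
    · left
      exact le_abs.2 (Or.inr (by linarith [hx.2]))

theorem nest_ssub (hc : Ctx S u C) (hH : HH S u) {m m' p q : Pt S u} (hm : Cut m p q)
    {f : G → ℝ} (e : Nest S (hh m p) (hh m' p) f) : EE m p ⊂ EE m' p := by
  refine ⟨fun x hx => lt_of_lt_of_le hx (hc.nest_le e x), fun hsub => ?_⟩
  exact no_end hc (hH.mem hm.1) (hH.notMem hm) fun s _ =>
    (hc.nest_finite e s).subset fun x hx => ⟨hx.1, fun h => hx.2 (hsub h)⟩

theorem cmp (hc : Ctx S u C) (hH : HH S u) {m m' p q : Pt S u} (hm : Cut m p q)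
    (hm' : Cut m' p q) (hn : ¬ Near m m') (hle : hh m p 1 ≤ hh m' p 1) :
    hh m p 1 < hh m' p 1 ∧ (∀ x, hh m p x ≤ hh m' p x) ∧ EE m p ⊂ EE m' p := by
  obtain ⟨f, e | e, hp, hq⟩ := hH.cases2 m m' p q hm hm' hn
  · exact ⟨nest_lt hc e hp hq, hc.nest_le e, nest_ssub hc hH hm e⟩
  · exact absurd (nest_lt hc e hp hq) (not_lt.2 hle)

theorem real_seq {R : Set ℝ} (hR : ¬ R.Countable) : ∃ r₀ ∈ R, ∃ r : ℕ → ℝ, StrictMono r ∧
    (∀ k, r k < r₀) ∧ Tendsto r atTop (𝓝 r₀) ∧ ∀ k, r k ∈ R := by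
  have h1 : ∃ x ∈ R, 𝓝[R ∩ Set.Iio x] x ≠ ⊥ := by
    by_contra h
    push Not at h
    refine hR ((countable_setOfPred_isolated_left_within (s := R)).mono fun x hx => ?_)
    exact ⟨hx, h x hx⟩
  obtain ⟨x, hx, h2⟩ := h1
  have h3 : x ∈ closure (R ∩ Set.Iio x) := mem_closure_iff_nhdsWithin_neBot.2 ⟨h2⟩
  have h4 : IsLUB (R ∩ Set.Iio x) x := isLUB_of_mem_closure (fun _ hy => le_of_lt hy.2) h3
  obtain ⟨r, a1, a2, a3, a4⟩ := h4.exists_seq_strictMono_tendsto_of_notMem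
    (fun h => lt_irrefl x h.2) (closure_nonempty_iff.1 ⟨x, h3⟩)
  exact ⟨x, hx, r, a1, a2, a3, fun k => (a4 k).1⟩

end SeqL

open SeqL in
theorem seq_stmt : SeqStmt := by
  intro G _ S u C hc hN hH p q 𝒯 hT hm
  have : Nonempty (Pt S u) := ⟨p⟩
  choose! m hv hcut using hm
  have key : ∀ t ∈ 𝒯, ∀ t' ∈ 𝒯, t ≠ t' → hh (m t) p 1 ≤ hh (m t') p 1 →
      hh (m t) p 1 < hh (m t') p 1 ∧ (∀ x, hh (m t) p x ≤ hh (m t') p x) ∧
        EE (m t) p ⊂ EE (m t') p := fun t ht t' ht' hne hle =>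
    cmp hc hH (hcut t ht) (hcut t' ht')
      (fun h => hne (by rw [← hv t ht, ← hN.val _ _ h, hv t' ht'])) hle
  have key2 : ∀ t ∈ 𝒯, ∀ t' ∈ 𝒯, hh (m t) p 1 < hh (m t') p 1 →
      (∀ x, hh (m t) p x ≤ hh (m t') p x) ∧ EE (m t) p ⊂ EE (m t') p := fun t ht t' ht' hlt =>
    (key t ht t' ht' (fun e => by rw [e] at hlt; exact lt_irrefl _ hlt) hlt.le).2
  have inj : Set.InjOn (fun t => hh (m t) p 1) 𝒯 := fun t ht t' ht' e => by
    by_contra hne
    exact (key t ht t' ht' hne (le_of_eq e)).1.ne e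
  obtain ⟨_, ⟨t₀, ht₀, rfl⟩, r, a1, a2, a3, a4⟩ :=
    real_seq fun h => hT (Set.countable_of_injective_of_countable_image inj h)
  choose t ht hr using a4
  simp only at hr a2 a3
  have b2 : ∀ k, hh (m (t k)) p 1 < hh (m t₀) p 1 := fun k => by rw [hr]; exact a2 k
  refine ⟨fun k => m (t k), m t₀, hcut _ ht₀, fun k => hcut _ (ht k), fun k => ?_,
    fun k => (key2 _ (ht k) _ ht₀ (b2 k)).2, fun x hx => ?_⟩
  · rcases Nat.eq_zero_or_pos k with rfl | hk
    · exact subset_rfl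
    · exact (key2 _ (ht 0) _ (ht k) (by rw [hr, hr]; exact a1 hk)).2.1
  · obtain ⟨K, -, hK⟩ := hc.gen.harnack x
    have h1 : Tendsto (fun k => K * (hh (m t₀) p 1 - r k)) atTop
        (𝓝 (K * (hh (m t₀) p 1 - hh (m t₀) p 1))) := (tendsto_const_nhds.sub a3).const_mul K
    rw [sub_self, mul_zero] at h1
    have h2 : (0 : ℝ) < hh (m t₀) p x - 1 / 2 := sub_pos.2 hx
    refine (h1.eventually (gt_mem_nhds h2)).mono fun k hk => ?_
    have h3 := hK _ ((hH.harm (m t₀) p).sub (hH.harm (m (t k)) p))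
      (fun y => sub_nonneg.2 ((key2 _ (ht k) _ ht₀ (b2 k)).1 y)) 1
    rw [one_mul, hr] at h3
    change 1 / 2 < hh (m (t k)) p x
    linarith

end Pool.Agent.MP_4f4d9f_gt.Hy
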