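import Pool.Agent.MP_4f4d9f_gt.Hy.IfD

/-! The slicing argument: an isoperimetric inequality of exponent three halves. -/

namespace Pool.Agent.MP_4f4d9f_gt.Hy

open Finsupp Sg Sg.Tup

namespace SliceL

theorem exists_stab (f : ℕ → ℕ) (hm : ∀ i, f i ≤ f (i + 1)) (h0 : 1 ≤ f 0) {n : ℕ}
    (hn : ∀ i, f i ≤ n) : ∃ i, i + 1 ≤ f i ∧ f (i + 1) = f i := by
  by_contra hc
  have : ∀ i, i + 1 ≤ f i := by
    intro i
    induction i with
    | zero => exact h0
    | succ i ih =>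
      have h1 := hm i
      have h2 : f (i + 1) ≠ f i := fun e => hc ⟨i, ih, e⟩
      omega
  have h1 := this n
  have h2 := hn n
  omega

theorem exists_good (V : ℕ → ℕ) (hm : ∀ i, V i ≤ V (i + 1)) {q m : ℕ} (hq : 1 ≤ q)
    (hV : ∀ i, V i ≤ m ^ 2) : ∃ i, i < 3 * q * (m + 1) ∧ q * (V (i + 1) - V i) ^ 2 ≤ V i := by
  by_contra hc
  have key : ∀ j, j ≤ 3 * q * (m + 1) → j ^ 2 ≤ 9 * q * V j := by
    intro j
    induction j with
    | zero => intro _; simp
    | succ j ih =>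
      intro hj
      have h1 := ih (by omega)
      have h2 : V j < q * (V (j + 1) - V j) ^ 2 :=
        not_le.1 fun e => hc ⟨j, by omega, e⟩
      obtain ⟨d, hd⟩ := Nat.exists_eq_add_of_le (hm j)
      rw [hd, Nat.add_sub_cancel_left] at h2
      rw [hd]
      have h3 : 9 * q * V j < 9 * q * (q * d ^ 2) := Nat.mul_lt_mul_of_pos_left h2 (by omega)
      have h4 : (3 * j) ^ 2 < (9 * q * d) ^ 2 := by nlinarith
      have h5 : 3 * j < 9 * q * d := lt_of_pow_lt_pow_left₀ 2 (Nat.zero_le _) h4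
      nlinarith
  have h1 := key _ le_rfl
  have h2 := hV (3 * q * (m + 1))
  have h3 : 9 * q * V (3 * q * (m + 1)) ≤ 9 * q * m ^ 2 := Nat.mul_le_mul_left _ h2
  have h4 : 9 * q * m ^ 2 < (3 * q * (m + 1)) ^ 2 := by
    have h5 : m ^ 2 < (m + 1) ^ 2 := Nat.pow_lt_pow_left (by omega) (by omega)
    have h6 : 9 * q * m ^ 2 < 9 * q * (m + 1) ^ 2 := Nat.mul_lt_mul_of_pos_left h5 (by omega)
    have h7 : 9 * q * (m + 1) ^ 2 ≤ 9 * q * (m + 1) ^ 2 * q := Nat.le_mul_of_pos_right _ hq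
    calc 9 * q * m ^ 2 < 9 * q * (m + 1) ^ 2 * q := h6.trans_le h7
      _ = (3 * q * (m + 1)) ^ 2 := by ring
  omega

theorem card_add_le {B : Type} (x y : B →₀ F2) :
    (x + y).support.card ≤ x.support.card + y.support.card := by
  classical
  exact (Finset.card_le_card support_add).trans (Finset.card_union_le _ _)

theorem mem_add {B : Type} {x y : B →₀ F2} {b : B} (h : b ∈ (x + y).support) :
    b ∈ x.support ∨ b ∈ y.support := by
  classical
  exact Finset.mem_union.1 (support_add h)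

theorem mem_map {B C : Type} (δ : (B →₀ F2) →ₗ[F2] (C →₀ F2)) {x : B →₀ F2} {t : C}
    (h : t ∈ (δ x).support) : ∃ b ∈ x.support, t ∈ (δ (single b 1)).support := by
  have e : δ = linearCombination F2 fun b => δ (single b 1) := by
    ext b c
    simp
  rw [e] at h
  exact mem_support_lc h

open Classical in
/-- The part of a chain where a height function is small. -/
noncomputable def low {B : Type} (h : B → ℕ) (r : ℕ) (x : B →₀ F2) : B →₀ F2 :=
  x.filter fun b => h b ≤ r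

open Classical in
/-- The part of a chain where a height function is large. -/
noncomputable def high {B : Type} (h : B → ℕ) (r : ℕ) (x : B →₀ F2) : B →₀ F2 :=
  x.filter fun b => ¬ h b ≤ r

theorem low_add_high {B : Type} (h : B → ℕ) (r : ℕ) (x : B →₀ F2) :
    low h r x + high h r x = x := by
  classical
  ext b
  by_cases e : h b ≤ r <;> simp [low, high, filter_apply, e]

theorem mem_low {B : Type} {h : B → ℕ} {r : ℕ} {x : B →₀ F2} {b : B} :
    b ∈ (low h r x).support ↔ b ∈ x.support ∧ h b ≤ r := by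
  by_cases e : h b ≤ r <;> simp [low, e]

theorem mem_high {B : Type} {h : B → ℕ} {r : ℕ} {x : B →₀ F2} {b : B} :
    b ∈ (high h r x).support ↔ b ∈ x.support ∧ r < h b := by
  by_cases e : h b ≤ r
  · simp [high]
  · simp [high, not_le.1 e]

theorem card_low_high {B : Type} (h : B → ℕ) (r : ℕ) (x : B →₀ F2) :
    (low h r x).support.card + (high h r x).support.card = x.support.card := by
  classical
  rw [← Finset.card_union_of_disjoint]
  · congr 1
    ext b
    simp only [Finset.mem_union, mem_low, mem_high]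
    constructor
    · rintro (e | e) <;> exact e.1
    · intro e
      rcases le_or_gt (h b) r with e' | e'
      · exact Or.inl ⟨e, e'⟩
      · exact Or.inr ⟨e, e'⟩
  · rw [Finset.disjoint_left]
    intro b h1 h2
    have := (mem_low.1 h1).2
    have := (mem_high.1 h2).2
    omega

theorem low_subset {B : Type} (h : B → ℕ) {r r' : ℕ} (e : r ≤ r') (x : B →₀ F2) :
    (low h r x).support ⊆ (low h r' x).support := fun _ hb =>
  mem_low.2 ⟨(mem_low.1 hb).1, (mem_low.1 hb).2.trans e⟩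

variable {G : Type} [Group G] {ℓ : G → ℕ} {A B C : Type} {pB : B → G} {pC : C → G}
  {δ₁ : (A →₀ F2) →ₗ[F2] (B →₀ F2)} {δ₂ : (B →₀ F2) →ₗ[F2] (C →₀ F2)} {Cyc : Set (C →₀ F2)}
  {D : ℕ}

/-- The quadratic inequality one degree up. -/
theorem quad (hl : Len ℓ) (hS : Slc ℓ pB pC δ₁ δ₂ Cyc D) (n : ℕ) :
    ∀ ξ ∈ Cyc, ξ.support.card ≤ n → ∃ η, δ₂ η = ξ ∧
      η.support.card ≤ (D * (D + 1) + 1) * ξ.support.card ^ 2 ∧
      ∀ b ∈ η.support, ∃ t ∈ ξ.support,
        ℓ ((pC t)⁻¹ * pB b) ≤ (D * (D + 1) + 1) * ξ.support.card := by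
  induction n with
  | zero =>
    intro ξ _ h
    have : ξ = 0 := by simpa using h
    exact ⟨0, by simp [this], by simp, by simp⟩
  | succ n ih =>
    intro ξ hξ hn
    rcases ξ.support.eq_empty_or_nonempty with h0 | ⟨t0, ht0⟩
    · exact ih ξ hξ (by simp [h0])
    let h : C → ℕ := fun t => ℓ ((pC t0)⁻¹ * pC t)
    have hb : ∀ i, (low h (i * D) ξ).support.card ≤ ξ.support.card := fun i => by
      have := card_low_high h (i * D) ξ
      omega
    obtain ⟨i, hi1, hi2⟩ := exists_stab (fun i => (low h (i * D) ξ).support.card)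
      (fun i => Finset.card_le_card (low_subset h (by nlinarith) ξ))
      (Finset.card_pos.2 ⟨t0, mem_low.2 ⟨ht0, by simp [h, (hl.zero 1).2 rfl]⟩⟩) hb
    have he : (low h (i * D) ξ).support = (low h ((i + 1) * D) ξ).support :=
      Finset.eq_of_subset_of_card_le (low_subset h (by nlinarith) ξ) hi2.le
    have hsp := hS.split (low h (i * D) ξ) (high h (i * D) ξ) (by rwa [low_add_high]) (by
      intro a ha b hb'
      have h1 := (mem_low.1 ha).2
      have h2 := mem_high.1 hb'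
      have h3 : ¬ h b ≤ (i + 1) * D := fun e => by
        have := (mem_low.1 (he ▸ mem_low.2 ⟨h2.1, e⟩)).2
        omega
      have h4 : h b ≤ h a + ℓ ((pC a)⁻¹ * pC b) := hl.tri _ _ _
      have h5 : (i + 1) * D = i * D + D := by ring
      omega)
    obtain ⟨η₁, e1, c1, r1⟩ := hS.cone3 _ hsp.1 (pC t0) (i * D) fun t ht => (mem_low.1 ht).2
    have hc := card_low_high h (i * D) ξ
    obtain ⟨η₂, e2, c2, r2⟩ := ih _ hsp.2 (by omega)
    set a := (low h (i * D) ξ).support.card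
    set b := (high h (i * D) ξ).support.card
    have hr : D * (i * D + 1) ≤ (D * (D + 1) + 1) * a := by
      have h1 : i * D + 1 ≤ (D + 1) * a := by nlinarith
      have h2 := Nat.mul_le_mul_left D h1
      nlinarith
    refine ⟨η₁ + η₂, by rw [map_add, e1, e2, low_add_high], ?_, fun x hx => ?_⟩
    · have h1 := card_add_le η₁ η₂
      have h2 := Nat.mul_le_mul_right a hr
      rw [← hc]
      calc _ ≤ (D * (D + 1) + 1) * a * a + (D * (D + 1) + 1) * b ^ 2 := by omega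
        _ = (D * (D + 1) + 1) * (a ^ 2 + b ^ 2) := by ring
        _ ≤ _ := Nat.mul_le_mul_left _ (by nlinarith)
    · rcases mem_add hx with hx | hx
      · exact ⟨t0, ht0, ((r1 x hx).trans hr).trans (Nat.mul_le_mul_left _ (by omega))⟩
      · obtain ⟨t, ht, e⟩ := r2 x hx
        exact ⟨t, (mem_high.1 ht).1, e.trans (Nat.mul_le_mul_left _ (by omega))⟩

/-- The slice of a cocycle is small and lies near a sphere. -/
theorem slice_bound (hl : Len ℓ) (hS : Slc ℓ pB pC δ₁ δ₂ Cyc D) {ζ : B →₀ F2} (hζ : δ₂ ζ = 0)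
    (y : G) (r : ℕ) :
    (δ₂ (low (fun b => ℓ (y⁻¹ * pB b)) r ζ)).support.card ≤
      D * ((low (fun b => ℓ (y⁻¹ * pB b)) (r + 2 * D) ζ).support.card -
        (low (fun b => ℓ (y⁻¹ * pB b)) r ζ).support.card) ∧
    (∀ t ∈ (δ₂ (low (fun b => ℓ (y⁻¹ * pB b)) r ζ)).support, ℓ (y⁻¹ * pC t) ≤ r + D) ∧
    δ₂ (high (fun b => ℓ (y⁻¹ * pB b)) r ζ) = δ₂ (low (fun b => ℓ (y⁻¹ * pB b)) r ζ) := by
  classical
  set h : B → ℕ := fun b => ℓ (y⁻¹ * pB b) with hh
  have e : δ₂ (high h r ζ) = δ₂ (low h r ζ) := by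
    have h1 : δ₂ (low h r ζ) + δ₂ (high h r ζ) = 0 := by rw [← map_add, low_add_high, hζ]
    have h2 := add_self2 (δ₂ (low h r ζ))
    exact add_left_cancel (h1.trans h2.symm)
  have hr : ∀ t ∈ (δ₂ (low h r ζ)).support, ℓ (y⁻¹ * pC t) ≤ r + D := by
    intro t ht
    obtain ⟨b, hb, e1⟩ := mem_map δ₂ ht
    exact (hl.tri y (pB b) (pC t)).trans (add_le_add (mem_low.1 hb).2 ((hS.loc b).2 t e1))
  refine ⟨?_, hr, e⟩
  rw [← Finset.card_sdiff_of_subset (low_subset h (by omega) ζ), mul_comm]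
  refine le_trans (Finset.card_le_card fun t ht => ?_)
    (Finset.card_biUnion_le_card_mul _ (fun b => (δ₂ (single b 1)).support) _
      fun b _ => (hS.loc b).1)
  have h1 := hr t ht
  rw [← e] at ht
  obtain ⟨b, hb, e1⟩ := mem_map δ₂ ht
  have h2 := mem_high.1 hb
  have h3 := (hS.loc b).2 t e1
  have h4 := hl.tri y (pC t) (pB b)
  rw [hl.symm] at h3
  refine Finset.mem_biUnion.2 ⟨b, Finset.mem_sdiff.2 ⟨mem_low.2 ⟨h2.1, ?_⟩, fun h5 => ?_⟩, e1⟩
  · change ℓ (y⁻¹ * pB b) ≤ _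
    omega
  · have := (mem_low.1 h5).2
    omega

/-- The slicing induction. -/
theorem slice (hl : Len ℓ) (hS : Slc ℓ pB pC δ₁ δ₂ Cyc D) : ∃ K, ∀ m n : ℕ, ∀ ζ, δ₂ ζ = 0 →
    ζ.support.card ≤ n → ζ.support.card ≤ m ^ 2 →
    ∃ c, δ₁ c = ζ ∧ c.support.card ≤ K * (m + 1) * ζ.support.card := by
  obtain ⟨K1, hK1⟩ : ∃ K1, K1 = D * (D + 1) + 1 := ⟨_, rfl⟩
  obtain ⟨q, hq⟩ : ∃ q, q = 2 * K1 * D ^ 2 + 1 := ⟨_, rfl⟩
  obtain ⟨K3, hK3⟩ : ∃ K3, K3 = 6 * D * q + D + K1 := ⟨_, rfl⟩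
  refine ⟨4 * D * (K3 + 1), fun m n => ?_⟩
  induction n with
  | zero =>
    intro ζ _ h _
    have : ζ = 0 := by simpa using h
    exact ⟨0, by simp [this], by simp⟩
  | succ n ih =>
    intro ζ hζ hn hm
    rcases ζ.support.eq_empty_or_nonempty with h0 | ⟨b0, hb0⟩
    · exact ih ζ hζ (by simp [h0]) hm
    set h : B → ℕ := fun b => ℓ ((pB b0)⁻¹ * pB b) with hh
    obtain ⟨i, hi1, hi2⟩ := exists_good (fun i => (low h (2 * D * i) ζ).support.card)
      (fun i => Finset.card_le_card (low_subset h (by nlinarith) ζ)) (q := q) (m := m) (by omega)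
      (fun i => by
        have := card_low_high h (2 * D * i) ζ
        change (low h (2 * D * i) ζ).support.card ≤ _
        omega)
    obtain ⟨s1, s2, s3⟩ := slice_bound hl hS hζ (pB b0) (2 * D * i)
    rw [← hh] at s1 s2 s3
    rw [show 2 * D * i + 2 * D = 2 * D * (i + 1) by ring] at s1
    have hc := card_low_high h (2 * D * i) ζ
    have hV : 1 ≤ (low h (2 * D * i) ζ).support.card :=
      Finset.card_pos.2 ⟨b0, mem_low.2 ⟨hb0, by simp [h, (hl.zero 1).2 rfl]⟩⟩
    obtain ⟨η, e1, c1, r1⟩ := quad hl hS _ _ (hS.cyc (low h (2 * D * i) ζ)) le_rfl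
    rw [← hK1] at c1 r1
    set V := (low h (2 * D * i) ζ).support.card
    set d := (low h (2 * D * (i + 1)) ζ).support.card - V
    set s := (δ₂ (low h (2 * D * i) ζ)).support.card
    have hs : 2 * K1 * s ^ 2 ≤ V := by
      have h1 : s ^ 2 ≤ (D * d) ^ 2 := Nat.pow_le_pow_left s1 2
      have h2 := Nat.mul_le_mul_left (2 * K1) h1
      have h3 : 2 * K1 * (D * d) ^ 2 ≤ q * d ^ 2 := by rw [hq]; nlinarith
      omega
    have hη : 2 * η.support.card ≤ V := by nlinarith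
    have hsm : s ≤ m := by
      have h1 : s ^ 2 ≤ 2 * K1 * s ^ 2 := Nat.le_mul_of_pos_left _ (by omega)
      have h2 : V ≤ m ^ 2 := (Nat.le_add_right _ _).trans (hc.le.trans hm)
      exact le_of_pow_le_pow_left₀ two_ne_zero (Nat.zero_le _) (h1.trans (hs.trans h2))
    have hρ : 2 * D * i + D + K1 * s ≤ K3 * (m + 1) := by
      have h1 : 2 * D * i ≤ 2 * D * (3 * q * (m + 1)) := Nat.mul_le_mul_left _ hi1.le
      have h2 : K1 * s ≤ K1 * (m + 1) := Nat.mul_le_mul_left _ (by omega)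
      have h3 : D ≤ D * (m + 1) := Nat.le_mul_of_pos_right _ (by omega)
      rw [hK3]
      nlinarith
    obtain ⟨c₁, f1, g1⟩ := hS.cone2 (low h (2 * D * i) ζ + η)
      (by rw [map_add, e1, add_self2]) (pB b0) (K3 * (m + 1)) (by
        intro b hb
        rcases mem_add hb with hb | hb
        · have : ℓ ((pB b0)⁻¹ * pB b) ≤ 2 * D * i := (mem_low.1 hb).2
          omega
        · obtain ⟨t, ht, e⟩ := r1 b hb
          have h1 := s2 t ht
          have h2 := hl.tri (pB b0) (pC t) (pB b)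
          omega)
    have k1 := card_add_le (low h (2 * D * i) ζ) η
    have k2 := card_add_le (high h (2 * D * i) ζ) η
    obtain ⟨c₂, f2, g2⟩ := ih (high h (2 * D * i) ζ + η)
      (by rw [map_add, e1, s3, add_self2]) (by omega) (by omega)
    refine ⟨c₁ + c₂, ?_, ?_⟩
    · rw [map_add, f1, f2, add_add_add_comm, add_self2, add_zero, low_add_high]
    · have k3 := card_add_le c₁ c₂
      set a := (low h (2 * D * i) ζ + η).support.card
      set b := (high h (2 * D * i) ζ + η).support.card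
      have k4 : D * (K3 * (m + 1) + 1) * a ≤ D * ((K3 + 1) * (m + 1)) * (2 * V) :=
        Nat.mul_le_mul (Nat.mul_le_mul_left _ (by nlinarith)) (by omega)
      have k5 : 2 * D * (K3 + 1) * (m + 1) * (V + 2 * b) ≤
          2 * D * (K3 + 1) * (m + 1) * (2 * ζ.support.card) := Nat.mul_le_mul_left _ (by omega)
      calc _ ≤ D * ((K3 + 1) * (m + 1)) * (2 * V) + 4 * D * (K3 + 1) * (m + 1) * b := by omega
        _ = 2 * D * (K3 + 1) * (m + 1) * (V + 2 * b) := by ring
        _ ≤ _ := k5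
        _ = _ := by ring

end SliceL

theorem slice_stmt : SliceStmt := by
  intro G _ ℓ A B C pB pC δ₁ δ₂ Cyc D hl hS
  obtain ⟨K, hK⟩ := SliceL.slice hl hS
  refine ⟨9 * K ^ 2, fun ζ hζ => ?_⟩
  obtain ⟨c, e, hc⟩ := hK (Nat.sqrt ζ.support.card + 1) _ ζ hζ le_rfl
    (Nat.lt_succ_sqrt' _).le
  refine ⟨c, e, ?_⟩
  set n := ζ.support.card
  rcases Nat.eq_zero_or_pos n with h0 | h0
  · rw [h0] at hc ⊢
    simpa using hc
  have h1 : 1 ≤ Nat.sqrt n := Nat.sqrt_pos.2 h0
  have h2 : Nat.sqrt n ^ 2 ≤ n := Nat.sqrt_le' n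
  have h3 : (Nat.sqrt n + 1 + 1) ^ 2 ≤ 9 * n := by nlinarith
  calc _ ≤ (K * (Nat.sqrt n + 1 + 1) * n) ^ 2 := Nat.pow_le_pow_left hc 2
    _ = K ^ 2 * n ^ 2 * (Nat.sqrt n + 1 + 1) ^ 2 := by ring
    _ ≤ K ^ 2 * n ^ 2 * (9 * n) := Nat.mul_le_mul_left _ h3
    _ = _ := by ring

end Pool.Agent.MP_4f4d9f_gt.Hy
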