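import Pool.Agent.MP_4f4d9f_gt.Hy.IfB

/-! Translation invariance of the family of half spaces. -/

namespace Pool.Agent.MP_4f4d9f_gt.Hy

open Filter Topology
open scoped Pointwise

namespace TranslL

variable {G : Type} [Group G] {S : Finset G} {u : G → ℝ}

theorem pt_ext {m m' : Pt S u} (hz : m.z = m'.z) (hv : m.val = m'.val) : m = m' := by
  cases m
  cases m'
  cases hz
  cases hv
  rfl

theorem tr_inv (g : G) (m : Pt S u) : (m.tr g).tr g⁻¹ = m :=
  pt_ext (funext fun n => by simp [Pt.tr]) (funext fun n => by simp [Pt.tr])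

theorem inv_tr (g : G) (m : Pt S u) : (m.tr g⁻¹).tr g = m := by
  simpa using tr_inv g⁻¹ m

theorem conn_iff (g : G) {A : Set G} {x y : G} :
    Conn S (g • A) (g * x) y ↔ Conn S A x (g⁻¹ * y) :=
  ⟨fun h => by simpa using h.smul g⁻¹, fun h => by simpa using h.smul g⟩

open Classical in
theorem uu_tr (g : G) (m : Pt S u) (T : Finset G) (δ : ℝ) :
    UU (m.tr g) (T.image (· * g⁻¹)) δ = g • UU m T δ := by
  ext x
  rw [Set.mem_smul_set_iff_inv_smul_mem]
  simp only [UU, Pt.tr, Set.mem_setOf_eq, Finset.forall_mem_image, mul_assoc, smul_eq_mul,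
    inv_mul_cancel, mul_one]

theorem nb_tr (g : G) {m : Pt S u} {N : Set G} (h : N ∈ nb m) : g • N ∈ nb (m.tr g) := by
  classical
  obtain ⟨T, δ, Φ, h1, h2, rfl⟩ := h
  refine ⟨T.image (· * g⁻¹), δ, g • Φ, h1, h2.smul_set, ?_⟩
  ext x
  rw [Set.mem_smul_set_iff_inv_smul_mem, NN, NN, uu_tr, ← Set.smul_set_sdiff]
  exact eventually_congr (Eventually.of_forall fun n => (conn_iff g).symm)

theorem same_tr (g : G) {A : Set G} {p q : Pt S u} (h : Same A p q) :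
    Same (g • A) (p.tr g) (q.tr g) := by
  obtain ⟨x, h1, h2⟩ := h
  exact ⟨g * x, h1.mono fun _ e => e.smul g, h2.mono fun _ e => e.smul g⟩

theorem side_tr (g : G) {m p q : Pt S u} (h : Side m p q) :
    Side (m.tr g) (p.tr g) (q.tr g) := by
  obtain ⟨N, h1, h2⟩ := h
  refine ⟨g • N, nb_tr g h1, fun Φ hΦ => ?_⟩
  have := same_tr g (h2 (g⁻¹ • Φ) hΦ.smul_set)
  rwa [Set.smul_set_sdiff, Set.smul_set_compl, smul_inv_smul] at this

theorem near_tr (g : G) {m p : Pt S u} (h : Near m p) : Near (m.tr g) (p.tr g) := by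
  intro N hN
  have h1 := nb_tr g⁻¹ hN
  rw [tr_inv] at h1
  exact (h _ h1).mono fun n hn => Set.mem_inv_smul_set_iff.1 hn

theorem cut_tr (g : G) {m p q : Pt S u} (h : Cut m p q) : Cut (m.tr g) (p.tr g) (q.tr g) :=
  ⟨fun e => h.1 (by simpa only [tr_inv] using near_tr g⁻¹ e),
    fun e => h.2.1 (by simpa only [tr_inv] using near_tr g⁻¹ e),
    fun e => h.2.2 (by simpa only [tr_inv] using side_tr g⁻¹ e)⟩

theorem adm_tr (g : G) {m p : Pt S u} {φ : G → ℝ} (h : Adm m p φ) :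
    Adm (m.tr g) (p.tr g) fun x => φ (g⁻¹ * x) :=
  ⟨h.1.mul_left _, fun _ => h.2.1 _, fun z hz =>
    h.2.2 (z.tr g⁻¹) fun e => hz (by simpa only [inv_tr] using side_tr g e)⟩

theorem hh_tr {C : ℕ} (hc : Ctx S u C) (g : G) (m p : Pt S u) (x : G) :
    hh (m.tr g) (p.tr g) x = hh m p (g⁻¹ * x) := by
  unfold hh
  congr 1
  ext r
  constructor
  · rintro ⟨φ, h1, rfl⟩
    refine ⟨fun y => φ (g⁻¹⁻¹ * y), by simpa only [tr_inv] using adm_tr g⁻¹ h1, ?_⟩
    rw [hc.hm_left h1.1]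
    simp
  · rintro ⟨φ, h1, rfl⟩
    exact ⟨_, adm_tr g h1, (hc.hm_left h1.1 _ _).symm⟩

end TranslL

theorem transl_stmt : TranslStmt := by
  rintro G _ S u C hc g _ ⟨m, p, q, h, rfl⟩
  refine ⟨m.tr g, p.tr g, q.tr g, TranslL.cut_tr g h, ?_⟩
  ext x
  rw [Set.mem_smul_set_iff_inv_smul_mem, EE, EE, Set.mem_setOf_eq, Set.mem_setOf_eq,
    TranslL.hh_tr hc, smul_eq_mul]

end Pool.Agent.MP_4f4d9f_gt.Hy
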