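import Pool.Agent.MP_4f4d9f_gt.Hy.IfB

/-! Uniform trichotomy for points at infinity. -/

namespace Pool.Agent.MP_4f4d9f_gt.Hy

open Filter Topology

theorem tri_stmt : TriStmt := by
  intro G _ S u C hS coh hN m m' h
  obtain ⟨N1, hN1, Np, hNp, hd⟩ := hN.sep m m' h
  obtain ⟨NA, hNA, uA⟩ := hN.unif m N1 hN1
  have f1 : (NA \ N1).Finite := by
    obtain ⟨N', -, h1, h2⟩ := uA ∅ Set.finite_empty
    exact h2.subset fun x hx => ⟨hx.1, fun e => hx.2 (h1 e).1⟩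
  refine ⟨NA, hNA, fun z hz Φ hΦ => ?_⟩
  have sub : Np \ (Φ ∪ (NA \ N1)) ⊆ NAᶜ \ Φ := fun x hx =>
    ⟨fun e => hx.2 (Or.inr ⟨e, fun e' => Set.disjoint_left.1 hd e' hx.1⟩), fun e => hx.2 (Or.inl e)⟩
  by_cases hn : Near m' z
  · obtain ⟨N3, h1, h2⟩ := hN.diff m' Np hNp _ (hΦ.union f1)
    exact same_of_conn (hN.conn m' N3 h1) (h2.trans sub) (hN.tail m' N3 h1) (hn N3 h1)
  obtain ⟨Nz, hNz, az⟩ := hN.avoid hn
  obtain ⟨N2p, hN2p, s2p⟩ := hN.inter m' Np hNp Nz hNz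
  obtain ⟨N0p, hN0p, u0⟩ := hN.unif m' N2p hN2p
  have f2 : (N0p \ N2p).Finite := by
    obtain ⟨N', -, h1, h2⟩ := u0 ∅ Set.finite_empty
    exact h2.subset fun x hx => ⟨hx.1, fun e => hx.2 (h1 e).1⟩
  have a0 : ∀ᶠ n in atTop, z.z n ∉ N0p := by
    filter_upwards [az, z.notMem f2] with n e1 e2 e3
    exact e2 ⟨e3, fun e4 => e1 (s2p e4).2⟩
  obtain ⟨Φ1, hΦ1, ns⟩ : ∃ Φ1 : Set G, Φ1.Finite ∧ ¬ Same (N0pᶜ \ Φ1) m z := by
    by_contra hc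
    exact hz ⟨N0p, hN0p, fun Ψ hΨ => by_contra fun e => hc ⟨Ψ, hΨ, e⟩⟩
  obtain ⟨N2, hN2, s2, f3⟩ := uA _ (hΦ1.union f2)
  have s2' : N2 ⊆ N0pᶜ \ Φ1 := fun x hx =>
    ⟨fun e => (s2 hx).2 (Or.inr ⟨e, fun e' => Set.disjoint_left.1 hd (s2 hx).1 (s2p e').1⟩),
      fun e => (s2 hx).2 (Or.inl e)⟩
  have f4 : (Φ1 ∪ (Φ ∪ (NA \ N2))).Finite := hΦ1.union (hΦ.union f3)
  obtain ⟨A, hA⟩ : ∃ A, A = N0pᶜ \ (Φ1 ∪ (Φ ∪ (NA \ N2))) := ⟨_, rfl⟩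
  have sA : A ⊆ N0pᶜ \ Φ1 := by
    rw [hA]
    exact fun x hx => ⟨hx.1, fun e => hx.2 (Or.inl e)⟩
  obtain ⟨k, hk⟩ := z.conn (A := A) (by
    rw [hA]
    exact a0.and (z.notMem f4))
  have miss : ∀ x, Conn S A (z.z k) x → x ∉ N2 := fun x hx e =>
    ns ⟨x, (hN.tail m N2 hN2).mono fun n hn => (hN.conn m N2 hN2 x e _ hn).mono s2',
      eventually_atTop.2 ⟨k, fun n hn => ((hx.symm hS).trans (hk n hn)).mono sA⟩⟩
  have sK : {x | Conn S A (z.z k) x} ⊆ NAᶜ \ Φ := fun x hx => by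
    have h1 : x ∈ A := Conn.right hx
    rw [hA] at h1
    exact ⟨fun e => h1.2 (Or.inr (Or.inr ⟨e, miss x hx⟩)), fun e => h1.2 (Or.inr (Or.inl e))⟩
  obtain ⟨N3, hN3, s3, f5⟩ := u0 _ (hΦ.union f1)
  have s3' : N3 ⊆ NAᶜ \ Φ := fun x hx => sub ⟨(s2p (s3 hx).1).1, (s3 hx).2⟩
  obtain ⟨x, hx, s, hs, hxs⟩ : ∃ x, Conn S A (z.z k) x ∧ ∃ s ∈ S, x * s ∈ N3 := by
    by_contra hc
    have key := coh.set hS (A := {x | Conn S A (z.z k) x}) fun s hs => by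
      refine ((f5.union f4).preimage (mul_left_injective s).injOn).subset fun x hx => ?_
      by_contra e
      refine hx.2 (Conn.tail hx.1 ?_ (by simpa using hs))
      rw [hA]
      exact ⟨fun e' => e (Or.inl ⟨e', fun e'' => hc ⟨x, hx.1, s, hs, e''⟩⟩),
        fun e' => e (Or.inr e')⟩
    rcases key with key | key
    · exact z.infinite (eventually_atTop.2 ⟨k, hk⟩).frequently key
    · exact m.infinite (A := {x | Conn S A (z.z k) x}ᶜ)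
        ((hN.tail m N2 hN2).mono fun n hn e => miss _ e hn).frequently key
  refine ⟨x, (hN.tail m' N3 hN3).mono fun n hn => ?_, eventually_atTop.2 ⟨k, fun n hn => ?_⟩⟩
  · exact (Conn.single (sK hx) (s3' hxs) (by simpa using hs)).trans
      ((hN.conn m' N3 hN3 _ hxs _ hn).mono s3')
  · exact ((hx.comp.mono sK).symm hS).trans ((hk n hn).comp.mono sK)

end Pool.Agent.MP_4f4d9f_gt.Hy
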