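import Pool.Agent.MP_4f4d9f_gt.Hy.IfB

/-! From bounded to arbitrary harmonic Dirichlet functions. -/

namespace Pool.Agent.MP_4f4d9f_gt.Hy

open Filter Topology

namespace TruncL

variable {G : Type} [Group G] {S : Finset G} {u : G → ℝ}

/-- Truncation at level `N`. -/
def tr (N r : ℝ) : ℝ := max (-N) (min N r)

theorem tr_lip (N a b : ℝ) : |tr N a - tr N b| ≤ |a - b| := by
  refine (abs_max_sub_max_le_max _ _ _ _).trans (max_le (by simp) ?_)
  exact (abs_min_sub_min_le_max _ _ _ _).trans (max_le (by simp) le_rfl)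

theorem tr_mem {N : ℝ} (h : 0 ≤ N) (r : ℝ) : -N ≤ tr N r ∧ tr N r ≤ N :=
  ⟨le_max_left _ _, max_le (by linarith) (min_le_left _ _)⟩

theorem tr_eq {N r : ℝ} (h : |r| ≤ N) : tr N r = r := by
  rw [tr, min_eq_right (abs_le.1 h).2, max_eq_right (abs_le.1 h).1]

theorem lower [Infinite G] (hS : Gen S) {f v : G → ℝ} (hv : Harm S v)
    (h : Sq fun x => f x - v x) (h0 : ∀ x, 0 ≤ f x) (x : G) : 0 ≤ v x :=
  hS.nonneg (fun x => (hv x).le) (fun ε hε => by
    rw [eventually_cofinite]
    refine (h.finite hε).subset fun y hy => ?_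
    simp only [Set.mem_ofPred_eq, not_le] at hy ⊢
    exact le_abs.2 (Or.inl (by linarith [h0 y]))) x

theorem key {C : ℝ} (hS : Gen S) (sg : SG S C) (sol : Sol S)
    (H : ∀ u : G → ℝ, Dir S u → Harm S u → I01 u → ∀ x y, u x = u y) (hu : Dir S u) {N : ℝ}
    (hN : 0 < N) : ∃ c : ℝ, ∀ T : Finset G, ∑ x ∈ T, (tr N (u x) - c) ^ 2 ≤ |C| * En S u := by
  have := sg.infinite
  have hf : Dir S fun x => tr N (u x) := hu.lip (tr_lip N)
  obtain ⟨v, h1, h2⟩ : ∃ v, Harm S v ∧ Sq fun x => tr N (u x) - v x := ⟨_, sol.spec hf⟩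
  have hv : Dir S v := by simpa using hf.sub h2.dir
  have l1 : ∀ x, 0 ≤ v x + N := lower hS (f := fun x => tr N (u x) + N) (h1.add (harm_const N))
    (by simpa using h2) fun x => by linarith [(tr_mem hN.le (u x)).1]
  have l2 : ∀ x, 0 ≤ N - v x := lower hS (f := fun x => N - tr N (u x)) ((harm_const N).sub h1)
    (by simpa using h2.neg) fun x => by linarith [(tr_mem hN.le (u x)).2]
  have h3 := H (fun x => (2 * N)⁻¹ * (v x + N)) ((hv.add (dir_const N)).const_mul _)
    ((h1.add (harm_const N)).const_mul _) fun x => ⟨mul_nonneg (by positivity) (l1 x), by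
      rw [inv_mul_le_iff₀ (by positivity)]
      linarith [l2 x]⟩
  have h4 : ∀ x, v x = v 1 := fun x => by
    have := mul_left_cancel₀ (by positivity) (h3 x 1)
    linarith
  simp only [h4] at h2
  refine ⟨v 1, fun T => (Summable.sum_le_tsum T (fun _ _ => sq_nonneg _) h2).trans
    ((sg _ h2).trans ((mul_le_mul_of_nonneg_right (le_abs_self C) ?_).trans
      (mul_le_mul_of_nonneg_left ?_ (abs_nonneg C))))⟩
  · exact Finset.sum_nonneg fun _ _ => tsum_nonneg fun _ => sq_nonneg _
  · refine Finset.sum_le_sum fun s hs => ?_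
    simp only [sub_sub_sub_cancel_right]
    exact Summable.tsum_le_tsum (fun x => sq_le_sq.2 (tr_lip N _ _)) (hf s hs) (hu s hs)

end TruncL

open TruncL in
theorem trunc_stmt : TruncStmt := by
  intro G _ S C hS sg sol H u hu hh
  have := sg.infinite
  choose c hc using fun n : ℕ =>
    key hS sg sol H hu (N := n + (|u 1| + 1)) (by positivity)
  have hb : ∀ n, c n ∈ Metric.closedBall (u 1) (Real.sqrt (|C| * En S u)) := fun n => by
    have h := hc n {1}
    rw [Finset.sum_singleton, tr_eq (by linarith [n.cast_nonneg (α := ℝ)])] at h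
    rw [Metric.mem_closedBall, dist_comm, Real.dist_eq]
    exact Real.abs_le_sqrt h
  obtain ⟨c0, -, φ, h1, h2⟩ := (isCompact_closedBall _ _).tendsto_subseq hb
  have h3 : ∀ x, Tendsto (fun k => tr (φ k + (|u 1| + 1)) (u x)) atTop (𝓝 (u x)) := fun x => by
    refine tendsto_const_nhds.congr' ?_
    filter_upwards [(tendsto_natCast_atTop_atTop (R := ℝ).comp h1.tendsto_atTop).eventually_ge_atTop
      |u x|] with k hk
    exact (tr_eq (le_trans hk (le_add_of_nonneg_right (by positivity)))).symm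
  have h4 : Sq fun x => u x - c0 := summable_of_sum_le (fun _ => sq_nonneg _) fun T =>
    le_of_tendsto' (tendsto_finsetSum T fun x _ => ((h3 x).sub h2).pow 2) fun k => hc (φ k) T
  have h5 := (hh.sub (harm_const c0)).eq_zero_of_sq hS h4
  intro x y
  linarith [h5 x, h5 y]

end Pool.Agent.MP_4f4d9f_gt.Hy
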