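import Pool.Agent.MP_4f4d9f_gt.Hy.Solve
import Pool.Agent.MP_4f4d9f_gt.Hy.Ray
import Pool.Agent.MP_4f4d9f_gt.Hy.Trunc
import Pool.Agent.MP_4f4d9f_gt.Hy.LemN
import Pool.Agent.MP_4f4d9f_gt.Hy.Nb
import Pool.Agent.MP_4f4d9f_gt.Hy.Tri
import Pool.Agent.MP_4f4d9f_gt.Hy.Sep
import Pool.Agent.MP_4f4d9f_gt.Hy.Cases
import Pool.Agent.MP_4f4d9f_gt.Hy.Transl
import Pool.Agent.MP_4f4d9f_gt.Hy.Fam
import Pool.Agent.MP_4f4d9f_gt.Hy.Generic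
import Pool.Agent.MP_4f4d9f_gt.Hy.Nested
import Pool.Agent.MP_4f4d9f_gt.Hy.CutPt
import Pool.Agent.MP_4f4d9f_gt.Hy.Seq
import Pool.Agent.MP_4f4d9f_gt.Hy.Lim
import Pool.Agent.MP_4f4d9f_gt.Hy.Ord
import Pool.Agent.MP_4f4d9f_gt.Hy.Comb
import Pool.Agent.MP_4f4d9f_gt.Hy.ConeT
import Pool.Agent.MP_4f4d9f_gt.Hy.CoCone
import Pool.Agent.MP_4f4d9f_gt.Hy.Rips
import Pool.Agent.MP_4f4d9f_gt.Hy.C01
import Pool.Agent.MP_4f4d9f_gt.Hy.Cone23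
import Pool.Agent.MP_4f4d9f_gt.Hy.Slice
import Pool.Agent.MP_4f4d9f_gt.Hy.C2

/-! The Liouville theorem for Dirichlet functions. -/

namespace Pool.Agent.MP_4f4d9f_gt.Hy

open Sg

variable {G : Type} [Group G] {S : Finset G}

theorem SG.mono {C C' : ℝ} (h : SG S C) (e : C ≤ C') : SG S C' := fun φ hφ =>
  (h φ hφ).trans (mul_le_mul_of_nonneg_right e
    (Finset.sum_nonneg fun _ _ => tsum_nonneg fun _ => sq_nonneg _))

theorem Coh.mono {C C' : ℕ} (h : Coh S C) (e : C ≤ C') : Coh S C' :=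
  ⟨h.c0, h.c1, fun w hw => (h.c2 w hw).imp fun _ hc =>
    ⟨hc.1, hc.2.1, hc.2.2.trans (Nat.mul_le_mul_right _ e)⟩⟩

/-- Harmonic Dirichlet functions are constant. -/
theorem liou_of_coh (hG : ∀ g : G, IsOfFinOrder g → g = 1) {C C' : ℕ} (hS : Gen S) (sg : SG S C)
    (coh : Coh S C') : Liou S :=
  liou solve_stmt ray_stmt trunc_stmt lemN_stmt nb_stmt tri_stmt sep_stmt cases_stmt transl_stmt
    fam_stmt generic_stmt (cutPt_stmt nested_stmt) seq_stmt lim_stmt ord_stmt hG (C := max C C') hS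
    (sg.mono (Nat.cast_le.2 (le_max_left _ _))) (coh.mono (le_max_right _ _))

theorem coh_of_comb (hG : Combable G) {n : ℕ} (hn : 4 ≤ n) {θ : Cell G → F2} {ω : Cell G →₀ F2}
    {H : Tup G → T2 G} (hD : Dual F2 n 1 θ ω H) : ∃ (S : Finset G) (C : ℕ), Gen S ∧ Coh S C :=
  coh_of_dual comb_stmt cone_stmt coCone_stmt rips_stmt c01_stmt cone23_stmt (c2_stmt slice_stmt)
    hG hn hD

end Pool.Agent.MP_4f4d9f_gt.Hy
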