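import Pool.Agent.MP_4f4d9f_gt.Hy.IfB

/-! Minimal fillings have boundedly many edges on the top level set of a Dirichlet function. -/

namespace Pool.Agent.MP_4f4d9f_gt.Hy.LemNL

open Filter Topology MeasureTheory

variable {G : Type} [Group G] {S : Finset G} {C : ℕ} {c : G × G → ZMod 2} {K L : Set (G × G)}
  {T : G × G × G}

/-- The indicator cochain. -/
noncomputable def ind (K : Set (G × G)) : G × G → ZMod 2 := K.indicator 1

omit [Group G] in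
theorem ind_mem {e : G × G} (h : e ∈ K) : ind K e = 1 := Set.indicator_of_mem h _

omit [Group G] in
theorem ind_notMem {e : G × G} (h : e ∉ K) : ind K e = 0 := Set.indicator_of_notMem h _

theorem z2 : ∀ a : ZMod 2, a ≠ 0 → a = 1 := by decide

/-- A filling of minimal size. -/
def Mn (S : Finset G) (c : G × G → ZMod 2) : Prop :=
  (sp1 S c).Finite ∧ ∀ c2 : G × G → ZMod 2, (sp1 S c2).Finite →
    (∀ t, Tri S t → d1 c2 t = d1 c t) → (sp1 S c).ncard ≤ (sp1 S c2).ncard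

/-- The triangles with an edge in `L`. -/
def trs (S : Finset G) (L : Set (G × G)) : Set (G × G × G) :=
  {t | Tri S t ∧ ((t.2.1, t.2.2) ∈ L ∨ (t.1, t.2.2) ∈ L ∨ (t.1, t.2.1) ∈ L)}

theorem trs_card (hS : Gen S) (hL : L.Finite) :
    (trs S L).Finite ∧ (trs S L).ncard ≤ 3 * S.card * L.ncard := by
  have hZ : (L ×ˢ (S : Set G)).Finite := hL.prod S.finite_toSet
  have hc : (L ×ˢ (S : Set G)).ncard = L.ncard * S.card := by
    rw [Set.ncard_prod, Set.ncard_coe_finset]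
  let f1 : (G × G) × G → G × G × G := fun p => (p.1.1 * p.2, p.1.1, p.1.2)
  let f2 : (G × G) × G → G × G × G := fun p => (p.1.1, p.1.1 * p.2, p.1.2)
  let f3 : (G × G) × G → G × G × G := fun p => (p.1.1, p.1.2, p.1.1 * p.2)
  have hsub : trs S L ⊆ f1 '' (L ×ˢ (S : Set G)) ∪ f2 '' (L ×ˢ (S : Set G)) ∪
      f3 '' (L ×ˢ (S : Set G)) := by
    rintro ⟨x, y, z⟩ ⟨⟨h1, h2, h3⟩, h | h | h⟩
    · exact Or.inl (Or.inl ⟨((y, z), y⁻¹ * x), ⟨h, hS.symm h1⟩, by simp [f1]⟩)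
    · exact Or.inl (Or.inr ⟨((x, z), x⁻¹ * y), ⟨h, h1⟩, by simp [f2]⟩)
    · exact Or.inr ⟨((x, y), x⁻¹ * z), ⟨h, h2⟩, by simp [f3]⟩
  have hf := ((hZ.image f1).union (hZ.image f2)).union (hZ.image f3)
  refine ⟨hf.subset hsub, (Set.ncard_le_ncard hsub hf).trans ?_⟩
  have a1 := Set.ncard_union_le (f1 '' (L ×ˢ (S : Set G)) ∪ f2 '' (L ×ˢ (S : Set G)))
    (f3 '' (L ×ˢ (S : Set G)))
  have a2 := Set.ncard_union_le (f1 '' (L ×ˢ (S : Set G))) (f2 '' (L ×ˢ (S : Set G)))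
  have a3 := Set.ncard_image_le (f := f1) hZ
  have a4 := Set.ncard_image_le (f := f2) hZ
  have a5 := Set.ncard_image_le (f := f3) hZ
  have a6 : 3 * S.card * L.ncard = 3 * (L.ncard * S.card) := by ring
  omega

theorem exists_edge (hS : Gen S) (hT : T ∈ sp2 S (d1 (ind K))) : ∃ e ∈ K,
    (e.1⁻¹ * T.1 ∈ S ∧ e.1⁻¹ * T.2.1 ∈ S ∧ e.1⁻¹ * T.2.2 ∈ S) ∧ ∀ L, e ∈ L → T ∈ trs S L := by
  obtain ⟨x, y, z⟩ := T
  obtain ⟨⟨h1, h2, h3⟩, h⟩ := hT
  have h0 : ∀ a : G, a⁻¹ * a ∈ S := fun a => by simpa using hS.one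
  by_cases e1 : (y, z) ∈ K
  · exact ⟨_, e1, ⟨hS.symm h1, h0 _, h3⟩, fun L hL => ⟨⟨h1, h2, h3⟩, Or.inl hL⟩⟩
  by_cases e2 : (x, z) ∈ K
  · exact ⟨_, e2, ⟨h0 _, h1, h2⟩, fun L hL => ⟨⟨h1, h2, h3⟩, Or.inr (Or.inl hL)⟩⟩
  by_cases e3 : (x, y) ∈ K
  · exact ⟨_, e3, ⟨h0 _, h1, h2⟩, fun L hL => ⟨⟨h1, h2, h3⟩, Or.inr (Or.inr hL)⟩⟩
  exact absurd (by simp only [d1, ind_notMem e1, ind_notMem e2, ind_notMem e3, add_zero]) h

theorem exists_new (hK : K ⊆ sp1 S c) (hT : T ∈ sp2 S (d1 (ind K))) (h0 : d1 c T = 0)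
    {P : G → Prop} (h1 : P T.1) (h2 : P T.2.1) (h3 : P T.2.2) :
    ∃ e ∈ sp1 S c, e ∉ K ∧ P e.1 ∧ P e.2 := by
  by_contra hne
  have key : ∀ e, Edge S e → P e.1 → P e.2 → ind K e = c e := fun e he p1 p2 => by
    by_cases h : e ∈ K
    · rw [ind_mem h, z2 _ (hK h).2]
    · rw [ind_notMem h]
      by_contra h'
      exact hne ⟨e, ⟨he, fun e0 => h' e0.symm⟩, h, p1, p2⟩
  obtain ⟨⟨t1, t2, t3⟩, h⟩ := hT
  refine h ?_
  rw [← h0, d1, d1, key (T.2.1, T.2.2) t3 h2 h3, key (T.1, T.2.2) t2 h1 h3,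
    key (T.1, T.2.1) t1 h1 h2]

theorem iso (hS : Gen S) (hC : Coh S C) (hc : Mn S c) (hK : K ⊆ sp1 S c) :
    K.ncard ^ 2 ≤ C * (sp2 S (d1 (ind K))).ncard ^ 3 := by
  have hKf := hc.1.subset hK
  obtain ⟨c3, f3, e3, l3⟩ := hC.c2 (ind K) ((trs_card hS hKf).1.subset fun T hT => by
    obtain ⟨e, he, -, h⟩ := exists_edge hS hT
    exact h K he)
  have hsub : sp1 S (fun e => c e + ind K e + c3 e) ⊆ (sp1 S c \ K) ∪ sp1 S c3 := by
    rintro e ⟨he, h⟩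
    replace h : c e + ind K e + c3 e ≠ 0 := h
    by_cases h3 : c3 e = 0
    · left
      by_cases hk : e ∈ K
      · exact absurd (by rw [h3, ind_mem hk, z2 _ (hK hk).2]; decide) h
      · exact ⟨⟨he, fun h0 => h (by rw [h3, ind_notMem hk, h0]; decide)⟩, hk⟩
    · exact Or.inr ⟨he, h3⟩
  have hf : ((sp1 S c \ K) ∪ sp1 S c3).Finite := (hc.1.subset Set.sdiff_subset).union f3
  have a1 := hc.2 _ (hf.subset hsub) fun t ht => by
    have h := e3 t ht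
    have h2 : ∀ a : ZMod 2, a + a = 0 := by decide
    simp only [d1] at h ⊢
    linear_combination h + h2 (ind K (t.2.1, t.2.2) + ind K (t.1, t.2.2) + ind K (t.1, t.2.1))
  have a2 := Set.ncard_le_ncard hsub hf
  have a3 := Set.ncard_union_le (sp1 S c \ K) (sp1 S c3)
  have a4 := Set.ncard_sdiff_add_ncard_of_subset hK hc.1
  exact (Nat.pow_le_pow_left (by omega) 2).trans l3

theorem avg {ι : Type} (A : Finset ι) (a b : ι → ℝ) (hab : ∀ i, a i ≤ b i) {t1 t2 : ℝ}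
    (h : t1 ≤ t2) : ∃ t ∈ Set.Icc t1 t2,
      (t2 - t1) * ({i | i ∈ A ∧ a i < t ∧ t ≤ b i}.ncard : ℝ) ≤ ∑ i ∈ A, (b i - a i) := by
  classical
  let n : ℝ → ℕ := fun t => {i | i ∈ A ∧ a i < t ∧ t ≤ b i}.ncard
  obtain ⟨t, ht, hmin⟩ : ∃ t ∈ Set.Icc t1 t2, ∀ s ∈ Set.Icc t1 t2, n t ≤ n s :=
    ⟨Function.argminOn n _ (Set.nonempty_Icc.2 h), Function.argminOn_mem n _ _,
      fun s hs => Function.argminOn_le n _ hs⟩
  refine ⟨t, ht, ?_⟩
  have i1 : ∀ i, Integrable ((Set.Ioc (a i) (b i)).indicator fun _ => (1 : ℝ)) := fun i =>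
    (integrable_indicator_iff measurableSet_Ioc).2 (integrableOn_const (by simp))
  have e1 : ∀ s, (n s : ℝ) = ∑ i ∈ A, (Set.Ioc (a i) (b i)).indicator (fun _ => (1 : ℝ)) s := by
    intro s
    have : {i | i ∈ A ∧ a i < s ∧ s ≤ b i} = ↑(A.filter fun i => s ∈ Set.Ioc (a i) (b i)) := by
      ext i
      simp
    simp only [n, this, Set.ncard_coe_finset, Set.indicator_apply, Finset.sum_boole]
  have e2 : ∫ s, ∑ i ∈ A, (Set.Ioc (a i) (b i)).indicator (fun _ => (1 : ℝ)) s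
      = ∑ i ∈ A, (b i - a i) := by
    rw [integral_finsetSum _ fun i _ => i1 i]
    refine Finset.sum_congr rfl fun i _ => ?_
    rw [integral_indicator_const _ measurableSet_Ioc, Real.volume_real_Ioc_of_le (hab i)]
    simp
  have e3 : ∫ s, (Set.Icc t1 t2).indicator (fun _ => (n t : ℝ)) s = (t2 - t1) * n t := by
    rw [integral_indicator_const _ measurableSet_Icc, Real.volume_real_Icc_of_le h, smul_eq_mul]
  rw [← e2, ← e3]
  refine integral_mono ((integrable_indicator_iff measurableSet_Icc).2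
    (integrableOn_const (by simp))) (integrable_finsetSum _ fun i _ => i1 i) fun s => ?_
  rw [← e1]
  by_cases hs : s ∈ Set.Icc t1 t2
  · rw [Set.indicator_of_mem hs]
    exact Nat.cast_le.2 (hmin s hs)
  · rw [Set.indicator_of_notMem hs]
    exact Nat.cast_nonneg _

theorem sum_sq_le {g : G → ℝ} (hg : Sq g) (A : Finset (G × G)) (hA : ∀ e ∈ A, Edge S e) :
    (∑ e ∈ A, g e.1) ^ 2 ≤ A.card * (S.card * ∑' x, g x ^ 2) := by
  classical
  refine sq_sum_le_card_mul_sum_sq.trans (mul_le_mul_of_nonneg_left ?_ (Nat.cast_nonneg _))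
  have h1 : ∑ e ∈ A, g e.1 ^ 2
      = ∑ p ∈ A.image (fun e => (e.1, e.1⁻¹ * e.2)), g p.1 ^ 2 := by
    rw [Finset.sum_image]
    rintro ⟨x, y⟩ - ⟨x', y'⟩ - h
    obtain ⟨h1, h2⟩ := Prod.mk.inj h
    obtain rfl : x = x' := h1
    obtain rfl : y = y' := mul_left_cancel h2
    rfl
  have h2 : A.image (fun e => (e.1, e.1⁻¹ * e.2)) ⊆ A.image Prod.fst ×ˢ S := by
    intro p hp
    obtain ⟨e, he, rfl⟩ := Finset.mem_image.1 hp
    exact Finset.mem_product.2 ⟨Finset.mem_image.2 ⟨e, he, rfl⟩, hA e he⟩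
  rw [h1]
  refine (Finset.sum_le_sum_of_subset_of_nonneg h2 fun _ _ _ => sq_nonneg _).trans ?_
  rw [Finset.sum_product]
  simp only [Finset.sum_const, nsmul_eq_mul]
  rw [← Finset.mul_sum]
  exact mul_le_mul_of_nonneg_left (Summable.sum_le_tsum _ (fun _ _ => sq_nonneg _) hg)
    (Nat.cast_nonneg _)

/-- The edges of the support above level `t`. -/
def lev (S : Finset G) (c : G × G → ZMod 2) (v : G → ℝ) (t : ℝ) : Set (G × G) :=
  {e | e ∈ sp1 S c ∧ t ≤ v e.1 ∧ t ≤ v e.2}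

theorem step (hS : Gen S) (hC : Coh S C) {v : G → ℝ} (hv : Dir S v) (hc : Mn S c)
    (hz : ∀ T, Tri S T → 0 < v T.1 → 0 < v T.2.1 → 0 < v T.2.2 → d1 c T = 0) {t1 t2 : ℝ}
    (h0 : 0 < t1) (h : t1 ≤ t2) :
    ((lev S c v t2).ncard : ℝ) ^ 4 * (t2 - t1) ^ 6 ≤
      (C ^ 2 * (3 * S.card) ^ 6 * (S.card * ∑' x, DD S v x ^ 2) ^ 3) *
        ((lev S c v t1).ncard : ℝ) ^ 3 := by
  have hf : ∀ t, (lev S c v t).Finite := fun t => hc.1.subset fun e he => he.1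
  obtain ⟨t, ht, a1⟩ := avg (hf t1).toFinset (fun e => v e.1 - DD S v e.1) (fun e => v e.1)
    (fun e => by linarith [dd_nonneg S v e.1]) h
  simp only [sub_sub_cancel] at a1
  have a2 := sum_sq_le (S := S) hv.dd (hf t1).toFinset fun e he => ((hf t1).mem_toFinset.1 he).1.1
  rw [← Set.ncard_eq_toFinset_card _ (hf t1)] at a2
  set L := {e | e ∈ (hf t1).toFinset ∧ v e.1 - DD S v e.1 < t ∧ t ≤ v e.1} with hL
  have hLf : L.Finite := (hf t1).toFinset.finite_toSet.subset fun e he => he.1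
  have a3 := iso hS hC hc (K := lev S c v t) fun e he => he.1
  have a4 : sp2 S (d1 (ind (lev S c v t))) ⊆ trs S L := fun T hT => by
    obtain ⟨e, he, ⟨s1, s2, s3⟩, h3⟩ := exists_edge hS hT
    refine h3 L ⟨(hf t1).mem_toFinset.2 ⟨he.1, ht.1.trans he.2.1, ht.1.trans he.2.2⟩, ?_, he.2.1⟩
    by_contra hlt
    have key : ∀ a, e.1⁻¹ * a ∈ S → t ≤ v a := fun a ha => by
      have h4 := le_dd v e.1 ha
      rw [mul_inv_cancel_left] at h4
      linarith [(abs_le.1 h4).1, not_lt.1 hlt]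
    have hp := h0.trans_le ht.1
    obtain ⟨e', b1, b2, b3⟩ := exists_new (fun e he => he.1) hT
      (hz T hT.1 (hp.trans_le (key _ s1)) (hp.trans_le (key _ s2)) (hp.trans_le (key _ s3)))
      (P := fun a => t ≤ v a) (key _ s1) (key _ s2) (key _ s3)
    exact b2 ⟨b1, b3⟩
  have a5 := (Set.ncard_le_ncard a4 (trs_card hS hLf).1).trans (trs_card hS hLf).2
  have a6 : (lev S c v t2).ncard ≤ (lev S c v t).ncard :=
    Set.ncard_le_ncard (fun e he => ⟨he.1, ht.2.trans he.2.1, ht.2.trans he.2.2⟩) (hf t)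
  have a7 : (lev S c v t2).ncard ^ 2 ≤ C * (3 * S.card * L.ncard) ^ 3 :=
    ((Nat.pow_le_pow_left a6 2).trans a3).trans
      (Nat.mul_le_mul_left _ (Nat.pow_le_pow_left a5 3))
  have a8 : ((lev S c v t2).ncard : ℝ) ^ 2 ≤ C * (3 * S.card * L.ncard) ^ 3 := by
    exact_mod_cast a7
  have hl : 0 ≤ t2 - t1 := sub_nonneg.2 h
  have b1 := pow_le_pow_left₀ (sq_nonneg _) a8 2
  have b2 := pow_le_pow_left₀ (sq_nonneg _)
    ((pow_le_pow_left₀ (by positivity) a1 2).trans a2) 3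
  calc ((lev S c v t2).ncard : ℝ) ^ 4 * (t2 - t1) ^ 6
      = (((lev S c v t2).ncard : ℝ) ^ 2) ^ 2 * (t2 - t1) ^ 6 := by ring
    _ ≤ ((C : ℝ) * (3 * S.card * L.ncard) ^ 3) ^ 2 * (t2 - t1) ^ 6 :=
        mul_le_mul_of_nonneg_right b1 (by positivity)
    _ = (C ^ 2 * (3 * S.card) ^ 6) * (((t2 - t1) * L.ncard) ^ 2) ^ 3 := by ring
    _ ≤ (C ^ 2 * (3 * S.card) ^ 6) *
        (((lev S c v t1).ncard : ℝ) * (S.card * ∑' x, DD S v x ^ 2)) ^ 3 :=
        mul_le_mul_of_nonneg_left b2 (by positivity)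
    _ = _ := by ring

theorem iter {x : ℕ → ℝ} {B N : ℝ} (hB : 0 ≤ B) (h0 : ∀ j, 0 ≤ x j) (hN : ∀ j, x j ≤ N)
    (h : ∀ j, x j ^ 4 ≤ B * 64 ^ j * x (j + 1) ^ 3) : x 0 ≤ 64 ^ 3 * B := by
  by_contra hlt
  rw [not_le] at hlt
  have hM : 0 < x 0 := lt_of_le_of_lt (by positivity) hlt
  have key : ∀ j, 64 ^ j * x 0 ≤ x j := by
    intro j
    induction j with
    | zero => simp
    | succ j ih =>
      by_contra h1
      have h2 := pow_le_pow_left₀ (h0 _) (not_le.1 h1).le 3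
      have h3 := pow_le_pow_left₀ (by positivity) ih 4
      have h4 := (h3.trans (h j)).trans (mul_le_mul_of_nonneg_left h2 (by positivity))
      have h5 : (0 : ℝ) < (64 ^ j) ^ 4 * x 0 ^ 3 := by positivity
      have h6 := mul_lt_mul_of_pos_left hlt h5
      have e1 : ((64 : ℝ) ^ j * x 0) ^ 4 = (64 ^ j) ^ 4 * x 0 ^ 3 * x 0 := by ring
      have e2 : B * 64 ^ j * (64 ^ (j + 1) * x 0) ^ 3
          = (64 ^ j) ^ 4 * x 0 ^ 3 * (64 ^ 3 * B) := by ring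
      linarith
  obtain ⟨j, hj⟩ := pow_unbounded_of_one_lt (N / x 0) (by norm_num : (1 : ℝ) < 64)
  rw [div_lt_iff₀ hM] at hj
  linarith [key j, hN j]

theorem lemM (hS : Gen S) (hC : Coh S C) {v : G → ℝ} (hv : Dir S v) : ∃ M : ℕ,
    ∀ c : G × G → ZMod 2, Mn S c →
      (∀ T, Tri S T → 0 < v T.1 → 0 < v T.2.1 → 0 < v T.2.2 → d1 c T = 0) →
      (lev S c v 1).ncard ≤ M := by
  obtain ⟨B, hB⟩ : ∃ B : ℝ,
      B = C ^ 2 * (3 * S.card) ^ 6 * (S.card * ∑' x, DD S v x ^ 2) ^ 3 := ⟨_, rfl⟩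
  have hB0 : 0 ≤ B := by
    have : 0 ≤ ∑' x, DD S v x ^ 2 := tsum_nonneg fun _ => sq_nonneg _
    rw [hB]
    positivity
  refine ⟨⌈64 ^ 3 * (4 ^ 6 * B)⌉₊, fun c hc hz => ?_⟩
  have h := iter (x := fun j => ((lev S c v (1 / 2 + 1 / (2 * 2 ^ j))).ncard : ℝ))
    (B := 4 ^ 6 * B) (N := (sp1 S c).ncard) (by positivity) (fun _ => Nat.cast_nonneg _)
    (fun _ => Nat.cast_le.2 (Set.ncard_le_ncard (fun e he => he.1) hc.1)) fun j => by
      have e1 : (1 / 2 + 1 / (2 * 2 ^ j) : ℝ) - (1 / 2 + 1 / (2 * 2 ^ (j + 1)))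
          = 1 / (4 * 2 ^ j) := by
        field_simp
        ring
      have e0 : (0 : ℝ) < 1 / (4 * 2 ^ j) := by positivity
      have h1 := step hS hC hv hc hz (t1 := 1 / 2 + 1 / (2 * 2 ^ (j + 1)))
        (t2 := 1 / 2 + 1 / (2 * 2 ^ j)) (by positivity) (by linarith)
      rw [e1, ← hB, div_pow, one_pow, mul_one_div, div_le_iff₀ (by positivity)] at h1
      refine h1.trans (le_of_eq ?_)
      have e2 : (64 : ℝ) ^ j = (2 ^ j) ^ 6 := by
        rw [← pow_mul, mul_comm, pow_mul]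
        norm_num
      rw [e2]
      ring
  have e3 : (1 / 2 + 1 / (2 * 2 ^ 0) : ℝ) = 1 := by norm_num
  simp only [e3] at h
  exact_mod_cast h.trans (Nat.le_ceil _)

end Pool.Agent.MP_4f4d9f_gt.Hy.LemNL
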