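import Pool.Agent.MP_4f4d9f_gt.Hy.MainB
import Pool.Agent.MP_4f4d9f_gt.Hy.Cat
import Pool.Agent.MP_4f4d9f_gt.Hy.Sph
import Pool.Agent.MP_4f4d9f_gt.Hy.Hemi
import Pool.Agent.MP_4f4d9f_gt.Hy.Prism
import Pool.Agent.MP_4f4d9f_gt.Hy.Chart
import Pool.Agent.MP_4f4d9f_gt.Hy.Triv
import Pool.Agent.MP_4f4d9f_gt.Hy.Orient
import Pool.Agent.MP_4f4d9f_gt.Hy.ThomLoc
import Pool.Agent.MP_4f4d9f_gt.Hy.ThomBoot
import Pool.Agent.MP_4f4d9f_gt.Hy.Qlem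
import Pool.Agent.MP_4f4d9f_gt.Hy.Fund
import Pool.Agent.MP_4f4d9f_gt.Hy.PsiZ
import Pool.Agent.MP_4f4d9f_gt.Hy.ThetaZ
import Pool.Agent.MP_4f4d9f_gt.Hy.DualZ
import Pool.Agent.MP_4f4d9f_gt.Hy.Red
import Pool.Agent.MP_4f4d9f_gt.Hy.Van
import Pool.Agent.MP_4f4d9f_gt.Hy.CohV
import Pool.Agent.MP_4f4d9f_gt.Hy.TorsF
import Pool.Agent.MP_4f4d9f_gt.Hy.Gap

/-! The assembly. -/

namespace Pool.Agent.MP_4f4d9f_gt.Hy

theorem main {n : ℕ} (hn : 4 ≤ n) {M : Type} [TopologicalSpace M] [T2Space M] [CompactSpace M]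
    [ChartedSpace (EuclideanSpace ℝ (Fin n)) M]
    {X : Type} [TopologicalSpace X] [ContractibleSpace X]
    {G : Type} [Group G] [MulAction G X] [ContinuousConstSMul G X]
    {p : X → M} (hp : IsQuotientCoveringMap p G) (hG : Combable G)
    {E : Type} [NormedAddCommGroup E] [InnerProductSpace ℂ E]
    (b : HilbertBasis G ℂ E) (ι : G →* vnAlg b) (hι : ∀ g h, (ι g).1 (b h) = b (g * h))
    {k : ℕ} (hk : n ≤ k + 2) : bettiSucc b ι X k = 0 :=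
  have h1 := hemi_stmt sph_stmt
  have h2 := chart_stmt h1 prism_stmt
  main_of (orient_stmt h2 triv_stmt) (thomLoc_stmt h1 h2) thomBoot_stmt
    (fund_stmt (q_stmt h1 prism_stmt)) psiZ_stmt thetaZ_stmt dual_stmt red_stmt van_stmt cohV_stmt
    torsF_stmt gap_stmt hn hp hG b ι hι hk

end Pool.Agent.MP_4f4d9f_gt.Hy
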