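import Pool.Agent.MP_4f4d9f_gt.Hy.MainA
import Pool.Agent.MP_4f4d9f_gt.Hy.Grp

/-! The assembly, relative to the statements of part E. -/

namespace Pool.Agent.MP_4f4d9f_gt.Hy

open Sg

variable {M : Type} [TopologicalSpace M] [T2Space M] [CompactSpace M]
  {X : Type} [TopologicalSpace X] [ContractibleSpace X]
  {G : Type} [Group G] [MulAction G X] [ContinuousConstSMul G X] {p : X → M}

theorem fundT_of (h1 : OrientStmt) (h2 : ThomLocStmt) (h3 : ThomBootStmt) (h4 : FundStmt)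
    (h5 : PsiZStmt) (h6 : ThetaZStmt) {m : ℕ} [ChartedSpace (Eu m) M]
    (hp : IsQuotientCoveringMap p G) :
    ∃ (w : G →* ℤˣ) (θ : Cell G → ℤ) (ν : Tup G →₀ ℤ), ThomR ℤ (m + 1) w θ ∧ FundT (m + 1) w θ ν := by
  have := t2_of_cover hp
  have hc : Charts X m := charts_of (chart_of_cover hp)
  obtain ⟨od, w, a1, a2⟩ := h1 G X m hc
  obtain ⟨T, hT⟩ := h3 G X m od w hc a2 (h2 X m od a1)
  obtain ⟨μ, hμ⟩ := h4 G X M p m od w hp hc a1 a2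
  obtain ⟨x₀, ψ', ψ, hψ⟩ := h5 G X M p hp
  exact ⟨w, h6 G X m od w T μ x₀ ψ' ψ (proper_of_cover hp) a1 hT hμ hψ⟩

theorem main_of (h1 : OrientStmt) (h2 : ThomLocStmt) (h3 : ThomBootStmt) (h4 : FundStmt)
    (h5 : PsiZStmt) (h6 : ThetaZStmt) (h7 : DualStmt) (h8 : RedStmt) (h9 : VanStmt)
    (h10 : CohVStmt) (h11 : TorsFStmt) (h12 : GapStmt) {n : ℕ} (hn : 4 ≤ n)
    [ChartedSpace (EuclideanSpace ℝ (Fin n)) M] (hp : IsQuotientCoveringMap p G)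
    (hG : Combable G) {E : Type} [NormedAddCommGroup E] [InnerProductSpace ℂ E]
    (b : HilbertBasis G ℂ E) (ι : G →* vnAlg b) (hι : ∀ g h, (ι g).1 (b h) = b (g * h))
    {k : ℕ} (hk : n ≤ k + 2) : bettiSucc b ι X k = 0 := by
  by_cases hF : Folner G G
  · exact bettiSucc_of_folner hp hF hι k
  obtain ⟨m, rfl⟩ : ∃ m, n = m + 1 := ⟨n - 1, by omega⟩
  obtain ⟨w, θ, ν, a1, a2⟩ := fundT_of h1 h2 h3 h4 h5 h6 (m := m) hp
  obtain ⟨ω, H, hD⟩ := h7 G ℤ _ w θ ν a1 a2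
  obtain ⟨θ', ν', a3, a4⟩ := h8 G _ w θ ν a1 a2
  obtain ⟨ω', H', hD'⟩ := h7 G F2 _ 1 θ' ν' a3 a4
  obtain ⟨S, C, hS, coh⟩ := coh_of_comb hG hn hD'
  obtain ⟨C', sg⟩ := h12 G S hS hF
  obtain ⟨v0, v1⟩ := h10 G E b ι hι S C' hS sg
    (liou_of_coh (h11 G _ w θ ω H hD) hS sg coh) w
  refine singDim_eq_zero (by simp) ((isRes_sing hp (MonoidHom.id G) Function.injective_id).torsAt
    ι (Bar.isRes G) (h9 G _ ι _ w θ ω H hD k fun j hj => ?_))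
  obtain rfl | rfl : j = 0 ∨ j = 1 := by omega
  exacts [v0, v1]

end Pool.Agent.MP_4f4d9f_gt.Hy
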